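import Pool.Agent.H59.CFL.Defs

/-!
# Non-spreading homeomorphisms along the trajectories of a flow

Used for MP_b11560_gt.  This is the theorem AlongFlow of helper61, restated for the definitions
of this folder.
-/

set_option autoImplicit false

open Filter Topology MeasureTheory
open scoped UpperHalfPlane MatrixGroups

namespace Pool.Agent.H59.CFL

/-- The map of the surface with lift `F` is non-spreading. -/
def NonSpreading (Γ : Subgroup SL(2, ℝ)) (F : ℍ → ℍ) : Prop :=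
  ∃ D : Set ℍ, IsCompact D ∧ (∀ z : ℍ, ∃ g : Γ, g • z ∈ D) ∧
    Tendsto (fun n : ℕ => Metric.diam (F^[n] '' D) / (n : ℝ)) atTop (𝓝 0)

/-- The rest points of a flow. -/
def RestPoints {S : Type} (φ : ℝ → S → S) : Set S := {x | ∀ t, φ t x = x}

/-- The points whose whole trajectory stays in one of the discs of the family. -/
def Trapped {S : Type} {n : ℕ} (ψ : ℝ → S → S) (e : Fin n → ℂ → S) : Set S :=
  {x | ∃ i, ∀ t, ψ t x ∈ e i '' Metric.closedBall 0 1}

/-- **Q1 for the non-spreading homeomorphisms along the trajectories of a flow whose invariant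
probability measures without drift are carried by the rest points and the trajectories that stay
in one of finitely many discs.** -/
theorem along (Γ : Subgroup SL(2, ℝ)) (hΓ : IsDeckGroup Γ) [MeasurableSpace (Surf Γ)]
    [BorelSpace (Surf Γ)] (φ : ℝ → ℍ → ℍ) (hφ : H61.SF.IsFlow φ)
    (hφΓ : ∀ (g : Γ) (t : ℝ) (z : ℍ), φ t (g • z) = g • φ t z) (hrest : (RestPoints φ).Nonempty)
    (ψ : ℝ → Surf Γ → Surf Γ) (hψ : ∀ t z, ψ t (proj Γ z) = proj Γ (φ t z))
    (n : ℕ) (e : Fin n → ℂ → Surf Γ) (he : H61.SF.IsDiscFamily e)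
    (hμ : ∀ μ : Measure (Surf Γ), IsProbabilityMeasure μ → (∀ t, μ.map (ψ t) = μ) →
      Tendsto (fun T : ℝ => (∫ x, disp Γ φ T x ∂μ) / T) atTop (𝓝 0) →
      μ (RestPoints ψ ∪ Trapped ψ e)ᶜ = 0)
    (f : Surf Γ ≃ₜ Surf Γ) (τ : Surf Γ → ℝ) (hτ : Continuous τ) (F : ℍ → ℍ)
    (hF : ∀ z, F z = φ (τ (proj Γ z)) z) (hfF : ∀ z, f (proj Γ z) = proj Γ (F z))
    (hns : NonSpreading Γ F) :
    ContinuousMap.id (Surf Γ) ∈ closure {k : C(Surf Γ, Surf Γ) |
      ∃ h : Surf Γ ≃ₜ Surf Γ, H61.SF.IsotopicToId h ∧ ∀ x, k x = h (f (h.symm x))} := by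
  have hdisc := hΓ.disc
  have hiso : ∀ (g : Γ) (x y : ℍ), dist (g • x) (g • y) = dist x y := fun g x y =>
    dist_smul (g : SL(2, ℝ)) x y
  obtain ⟨K, hK, hKcov⟩ := hΓ.cocompact
  have hcomp : CompactSpace (Surf Γ) := H61.SF.quot_compact hK hKcov
  have hT2 : T2Space (Surf Γ) := t2Space_of_properlyDiscontinuousSMul_of_t2Space
  have hsc : SecondCountableTopology (Surf Γ) :=
    ContinuousConstSMul.secondCountableTopology (Γ := Γ) (T := ℍ)
  have hmet : TopologicalSpace.MetrizableSpace (Surf Γ) := inferInstance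
  let _ : MetricSpace (Surf Γ) := TopologicalSpace.metrizableSpaceMetric (Surf Γ)
  have hΦ : H61.SF.IsFlow φ := ⟨hφ.cont, hφ.zero, hφ.add⟩
  have hpc : Continuous (proj Γ) := continuous_quotient_mk'
  have hps : Function.Surjective (proj Γ) := Quotient.mk_surjective
  have hpg : ∀ (g : Γ) (z : ℍ), proj Γ (g • z) = proj Γ z := fun g z =>
    Quotient.sound ⟨g, rfl⟩
  -- the flow on the surface
  have hfl : H61.SF.IsFlow ψ := by
    refine ⟨H61.SF.quot_prod ?_, fun x => ?_, fun s t x => ?_⟩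
    · have h1 : (fun p : ℝ × ℍ => ψ p.1 (proj Γ p.2)) = fun p : ℝ × ℍ => proj Γ (φ p.1 p.2) := by
        funext p
        exact hψ _ _
      exact h1 ▸ hpc.comp hφ.cont
    · obtain ⟨z, rfl⟩ := hps x
      rw [hψ, hφ.zero]
    · obtain ⟨z, rfl⟩ := hps x
      rw [hψ, hψ, hψ, hφ.add]
  -- the displacement
  have hDp : ∀ (t : ℝ) (z : ℍ), disp Γ φ t (proj Γ z) = dist (φ t z) z := by
    intro t z
    have h1 : proj Γ (proj Γ z).out = proj Γ z := Quotient.out_eq _
    obtain ⟨g, hg⟩ := Quotient.exact h1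
    unfold disp
    change g • z = (proj Γ z).out at hg
    rw [← hg, hφΓ, hiso]
  have hDc : Continuous (fun q : ℝ × Surf Γ => disp Γ φ q.1 q.2) := by
    refine H61.SF.quot_prod ?_
    have h1 : (fun p : ℝ × ℍ => disp Γ φ p.1 (proj Γ p.2)) =
        fun p : ℝ × ℍ => dist (φ p.1 p.2) p.2 := by
      funext p
      exact hDp _ _
    exact h1 ▸ hφ.cont.dist continuous_snd
  -- the bound of the displacement of the iterates
  obtain ⟨z₀, hz₀⟩ := hrest
  obtain ⟨D, hD, hcov, hlim⟩ := hns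
  have hFc : Continuous F := by
    have h1 : F = fun z => φ (τ (proj Γ z)) z := funext hF
    rw [h1]
    exact hφ.cont.comp ((hτ.comp hpc).prodMk continuous_id)
  have hFG : ∀ (g : Γ) (z : ℍ), F (g • z) = g • F z := by
    intro g z
    rw [hF, hF, hpg, hφΓ]
  have hFz₀ : F z₀ = z₀ := by rw [hF, hz₀]
  have hω : ∀ δ > 0, ∃ C : ℝ, ∀ (k : ℕ) (z : ℍ),
      dist (φ (H61.SF.tk f τ k (proj Γ z)) z) z ≤ δ * k + C := by
    intro δ hδ
    obtain ⟨C, hC⟩ := H61.SF.disp_of_ns hiso hFc hFG hFz₀ hD hcov hlim hδ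
    refine ⟨C, fun k z => ?_⟩
    rw [← (H61.SF.lift_iter hΦ hF hfF k z).1]
    exact hC k z
  obtain ⟨M, hM⟩ := isCompact_univ.exists_bound_of_continuousOn (f := τ) hτ.continuousOn
  have hM' : ∀ x, |τ x| ≤ M := fun x => by
    have h1 := hM x (Set.mem_univ x)
    rwa [Real.norm_eq_abs] at h1
  have hfψ : ∀ x, f x = ψ (τ x) x := by
    intro x
    obtain ⟨z, rfl⟩ := hps x
    rw [hfF, hF, hψ]
  set E : Set (Surf Γ) := RestPoints ψ ∪ Trapped ψ e with hE
  have hEne : E.Nonempty := by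
    refine ⟨proj Γ z₀, Or.inl fun t => ?_⟩
    rw [hψ, hz₀]
  have hDR : ∀ χ : Surf Γ → ℝ, Continuous χ → (∀ x, 0 ≤ χ x) → (∀ x ∈ E, χ x = 0) → ∀ η > 0,
      ∃ n : ℕ, 0 < n ∧ ∀ x, |H61.SF.coc ψ χ (H61.SF.tk f τ n x) x| ≤ η * n :=
    fun χ hχ hχ0 hχE η hη =>
      H61.SF.drift_rate hfl hΦ hps hψ hDc hDp hμ hfψ hM' hω χ hχ hχ0 hχE η hη
  have hed : H61.SF.IsDiscFamily e := ⟨he.cont, he.inj, he.isOpen⟩
  have hmain : ∀ ε : ℝ, 0 < ε → ∃ h : Surf Γ ≃ₜ Surf Γ, H61.SF.IsotopicToId h ∧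
      ∀ x, dist (h (f (h.symm x))) x ≤ ε := by
    intro ε hε
    -- discs of the family are small near their centres
    obtain ⟨l, hl, hl1, hl2⟩ : ∃ l : ℝ, 0 < l ∧ l ≤ 1 ∧ ∀ i, ∀ z ∈ Metric.closedBall (0 : ℂ) l,
        dist (e i z) (e i 0) ≤ ε / 4 := by
      have h1 : ∀ i, ∀ᶠ l : ℝ in 𝓝[>] 0, ∀ z ∈ Metric.closedBall (0 : ℂ) l,
          dist (e i z) (e i 0) ≤ ε / 4 := by
        intro i
        have hc : ContinuousAt (e i) 0 := (he.cont i).continuousAt
          (Metric.closedBall_mem_nhds 0 two_pos)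
        obtain ⟨δ, hδ, hδ2⟩ := Metric.continuousAt_iff.1 hc (ε / 4) (by linarith)
        filter_upwards [Ioo_mem_nhdsGT hδ] with l hl z hz
        exact (hδ2 ((Metric.mem_closedBall.1 hz).trans_lt hl.2)).le
      have h2 : ∀ᶠ l : ℝ in 𝓝[>] 0, ∀ i, ∀ z ∈ Metric.closedBall (0 : ℂ) l,
          dist (e i z) (e i 0) ≤ ε / 4 := Filter.eventually_all.2 h1
      have h3 : ∀ᶠ l : ℝ in 𝓝[>] 0, l ≤ 1 := by
        filter_upwards [Ioo_mem_nhdsGT one_pos] with l hl
        exact hl.2.le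
      obtain ⟨l, ⟨hl2, hl1⟩, hl⟩ := ((h2.and h3).and self_mem_nhdsWithin).exists
      exact ⟨l, hl, hl1, hl2⟩
    obtain ⟨g, hg, hg2⟩ := H61.SF.exists_shrink hed hl hl1
    -- the conjugate flow
    let ψ' : ℝ → Surf Γ → Surf Γ := fun t x => g (ψ t (g.symm x))
    have hfl' : H61.SF.IsFlow ψ' := by
      refine ⟨?_, fun x => ?_, fun s t x => ?_⟩
      · exact g.continuous.comp (hfl.cont.comp
          (continuous_fst.prodMk (g.symm.continuous.comp continuous_snd)))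
      · change g (ψ 0 (g.symm x)) = x
        rw [hfl.zero, g.apply_symm_apply]
      · change g (ψ (s + t) (g.symm x)) = g (ψ s (g.symm (g (ψ t (g.symm x)))))
        rw [g.symm_apply_apply, hfl.add]
    have hsmall : ∀ a ∈ g '' E, ∀ t, dist (ψ' t a) a ≤ ε / 2 := by
      rintro a ⟨x, hx, rfl⟩ t
      change dist (g (ψ t (g.symm (g x)))) (g x) ≤ ε / 2
      rw [g.symm_apply_apply]
      rcases hx with hx | hx
      · rw [hx t, dist_self]
        linarith
      · obtain ⟨i, hi⟩ := hx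
        have hi' := hi t
        have hi0 := hi 0
        rw [hfl.zero] at hi0
        obtain ⟨z, hz, rfl⟩ := hi0
        obtain ⟨w, hw, hw2⟩ := hi'
        obtain ⟨z', hz', hz2⟩ := hg2 i z hz
        obtain ⟨w', hw', hw2'⟩ := hg2 i w hw
        rw [← hw2, hw2', hz2]
        have d1 := hl2 i w' hw'
        have d2 := hl2 i z' hz'
        have := dist_triangle_right (e i w') (e i z') (e i 0)
        linarith
    let f' : Surf Γ ≃ₜ Surf Γ := g.symm.trans (f.trans g)
    have hDR' : ∀ χ : Surf Γ → ℝ, Continuous χ → (∀ x, 0 ≤ χ x) → (∀ x ∈ g '' E, χ x = 0) →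
        ∀ η > 0, ∃ n : ℕ, 0 < n ∧
          ∀ x, |H61.SF.coc ψ' χ (H61.SF.tk f' (fun y => τ (g.symm y)) n x) x| ≤ η * n := by
      intro χ hχ hχ0 hχE η hη
      obtain ⟨n, hn, hn2⟩ := hDR (fun x => χ (g x)) (hχ.comp g.continuous) (fun x => hχ0 _)
        (fun x hx => hχE _ ⟨x, hx, rfl⟩) η hη
      refine ⟨n, hn, fun x => ?_⟩
      have h1 := (H61.SF.tk_conj g f τ n x).1
      have h2 : H61.SF.tk f' (fun y => τ (g.symm y)) n x = H61.SF.tk f τ n (g.symm x) := h1
      rw [h2]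
      exact hn2 (g.symm x)
    obtain ⟨k, hk, hk2⟩ := H61.SF.avg_close hfl' (hEne.image g) (f := f')
      (τ := fun y => τ (g.symm y)) (hτ.comp g.symm.continuous) (fun y => by
        change g (f (g.symm y)) = g (ψ (τ (g.symm y)) (g.symm y))
        rw [hfψ]) (fun y => hM' _) hDR' hsmall (show 0 < ε / 2 by linarith)
    refine ⟨g.trans k, H61.SF.isoId_trans hg hk, fun x => ?_⟩
    have := hk2 x
    rw [add_halves] at this
    exact this
  choose h hh hh2 using fun n : ℕ => hmain (1 / ((n : ℝ) + 1)) (by positivity)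
  let k : ℕ → C(Surf Γ, Surf Γ) := fun n =>
    ⟨fun x => h n (f ((h n).symm x)),
      (h n).continuous.comp (f.continuous.comp (h n).symm.continuous)⟩
  have htend : Tendsto k atTop (𝓝 (ContinuousMap.id (Surf Γ))) := by
    rw [ContinuousMap.tendsto_iff_tendstoUniformly, Metric.tendstoUniformly_iff]
    intro ε hε
    have h1 := (tendsto_one_div_add_atTop_nhds_zero_nat (𝕜 := ℝ)).eventually_lt_const hε
    filter_upwards [h1] with n hn x
    rw [dist_comm]
    exact (hh2 n x).trans_lt hn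
  exact mem_closure_of_tendsto htend (Eventually.of_forall fun n => ⟨h n, hh n, fun x => rfl⟩)

end Pool.Agent.H59.CFL
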