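import Pool.Agent.H59.CFL.Targets

/-!
# C¹ flows on closed hyperbolic surfaces: measures without drift

Used for MP_b11560_gt (board `cfl_modules`).
-/

set_option autoImplicit false

open MeasureTheory Filter Topology Set
open scoped UpperHalfPlane MatrixGroups

namespace Pool.Agent.H59.CFL

open Pool.Agent.H61.SF (IsFlow)

section basics

variable {Γ : Subgroup SL(2, ℝ)}

theorem proj_cont : Continuous (proj Γ) := continuous_quotient_mk'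

theorem proj_surj : Function.Surjective (proj Γ) := Quotient.mk_surjective

theorem proj_smul (g : Γ) (z : ℍ) : proj Γ (g • z) = proj Γ z := Quotient.sound ⟨g, rfl⟩

theorem exists_of_proj_eq {z w : ℍ} (h : proj Γ z = proj Γ w) : ∃ g : Γ, z = g • w := by
  obtain ⟨g, hg⟩ := Quotient.exact h
  exact ⟨g, hg.symm⟩

theorem dist_smul_gamma (g : Γ) (x y : ℍ) : dist (g • x) (g • y) = dist x y :=
  dist_smul (g : SL(2, ℝ)) x y

variable {φ : ℝ → ℍ → ℍ}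

theorem disp_proj (hφΓ : ∀ (g : Γ) (t : ℝ) (z : ℍ), φ t (g • z) = g • φ t z) (t : ℝ) (z : ℍ) :
    disp Γ φ t (proj Γ z) = dist (φ t z) z := by
  have h1 : proj Γ (proj Γ z).out = proj Γ z := Quotient.out_eq _
  obtain ⟨g, hg⟩ := exists_of_proj_eq h1
  unfold disp
  rw [hg, hφΓ, dist_smul_gamma]

theorem disp_cont (hφ : IsFlow φ) (hφΓ : ∀ (g : Γ) (t : ℝ) (z : ℍ), φ t (g • z) = g • φ t z) :
    Continuous (fun q : ℝ × Surf Γ => disp Γ φ q.1 q.2) := by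
  refine H61.SF.quot_prod ?_
  have h1 : (fun p : ℝ × ℍ => disp Γ φ p.1 (proj Γ p.2)) =
      fun p : ℝ × ℍ => dist (φ p.1 p.2) p.2 := by
    funext p
    exact disp_proj hφΓ _ _
  exact h1 ▸ hφ.cont.dist continuous_snd

theorem flow_surf (hφ : IsFlow φ) {ψ : ℝ → Surf Γ → Surf Γ}
    (hψ : ∀ t z, ψ t (proj Γ z) = proj Γ (φ t z)) : IsFlow ψ := by
  refine ⟨H61.SF.quot_prod ?_, fun x => ?_, fun s t x => ?_⟩
  · have h1 : (fun p : ℝ × ℍ => ψ p.1 (proj Γ p.2)) = fun p : ℝ × ℍ => proj Γ (φ p.1 p.2) := by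
      funext p
      exact hψ _ _
    exact h1 ▸ proj_cont.comp hφ.cont
  · obtain ⟨z, rfl⟩ := proj_surj x
    rw [hψ, hφ.zero]
  · obtain ⟨z, rfl⟩ := proj_surj x
    rw [hψ, hψ, hψ, hφ.add]

end basics

/-- A non-periodic recurrent point has a neighbourhood that is null for every measure without
drift. -/
theorem asm_np (hCIR : T_CIR) (hLFT : T_LFT) (hMON : T_MON) (hCHN : T_CHN) (hLLP : T_LLP)
    (hBXS : T_BXS) (hFRT : T_FRT) (hFLP : T_FLP) (hRTM : T_RTM) (hFRR : T_FRR) (hTRV : T_TRV)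
    (hFLX : T_FLX) {Γ : Subgroup SL(2, ℝ)} (hΓ : IsDeckGroup Γ) [MeasurableSpace (Surf Γ)]
    [BorelSpace (Surf Γ)] [T2Space (Surf Γ)] [CompactSpace (Surf Γ)] {φ : ℝ → ℍ → ℍ}
    (hφ : IsFlow φ) (hC1 : IsC1 φ)
    (hφΓ : ∀ (g : Γ) (t : ℝ) (z : ℍ), φ t (g • z) = g • φ t z) {ψ : ℝ → Surf Γ → Surf Γ}
    (hψ : ∀ t z, ψ t (proj Γ z) = proj Γ (φ t z)) {μ : Measure (Surf Γ)}
    (hμ : IsProbabilityMeasure μ) (hinv : ∀ t, μ.map (ψ t) = μ)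
    (hdr : Tendsto (fun T : ℝ => (∫ x, disp Γ φ T x ∂μ) / T) atTop (𝓝 0)) (x : Surf Γ)
    (hnp : ∀ t ≠ 0, ψ t x ≠ x) (hrec : ∀ U ∈ 𝓝 x, ∀ N : ℝ, ∃ t ≥ N, ψ t x ∈ U) :
    ∃ O ∈ 𝓝 x, μ O = 0 := by
  have hfl : IsFlow ψ := flow_surf hφ hψ
  obtain ⟨z₀, rfl⟩ := proj_surj x
  have hnr : ∃ t, φ t z₀ ≠ z₀ := by
    refine ⟨1, fun h => hnp 1 one_ne_zero ?_⟩
    rw [hψ, h]
  obtain ⟨σ₀, δ, hσ₀, hbox₀⟩ := hBXS Γ hΓ φ hφ hC1 hφΓ ψ hψ z₀ hnr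
  -- a section with a first return on the right
  obtain ⟨σ, hσ, hbox, T, b, hT, hb0, hb, hTb, hfr⟩ : ∃ σ : ℝ → Surf Γ, σ 0 = proj Γ z₀ ∧
      IsBox ψ σ δ ∧ ∃ T b : ℝ, 0 < T ∧ 0 < b ∧ b ≤ 1 / 2 ∧ ψ T (σ 0) = σ b ∧
        ∀ t, 0 < t → t < T → ∀ ς, |ς| ≤ 1 / 2 → ψ t (σ 0) ≠ σ ς := by
    rw [← hσ₀] at hnp hrec
    obtain ⟨T, b, hT, hb, hb0, hTb, hfr⟩ := hFRT (Surf Γ) ψ σ₀ δ hfl hbox₀ hnp hrec
    rcases lt_or_gt_of_ne hb0 with h | h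
    · refine ⟨fun s => σ₀ (-s), by simpa using hσ₀, hFLP _ ψ σ₀ δ hbox₀, T, -b, hT, by linarith,
        ?_, by simpa using hTb, fun t h1 h2 ς h3 => ?_⟩
      · rw [abs_le] at hb
        linarith [hb.1]
      · have := hfr t h1 h2 (-ς) (by rwa [abs_neg])
        simpa using this
    · exact ⟨σ₀, hσ₀, hbox₀, T, b, hT, h, (abs_le.1 hb).2, hTb, hfr⟩
  obtain ⟨ε₀, Tm, P, h1, h2, h3, h4, h5, h6, h7, h8, h9, h10⟩ :=
    hRTM (Surf Γ) ψ σ δ hfl hbox T b hT hb0 (by linarith) hTb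
  obtain ⟨ε, hret⟩ := hFRR (Surf Γ) ψ σ δ hfl hbox T b hT hb0 hb hTb hfr ε₀ Tm P h1 h2 h3 h4 h5
    h6 h7 h8 h9 h10
  obtain ⟨V, r, η, h₀, htrv, hV, hr⟩ := hTRV (Surf Γ) ψ σ δ hfl hbox ε Tm P hret
  obtain ⟨U, hUc, hU1, hU2⟩ := hCIR (Surf Γ) ψ V r η htrv
  obtain ⟨u, huc, huU, hug⟩ := hLFT Γ U hUc
  obtain ⟨hmono, hstr⟩ := hMON (Surf Γ) ℍ ψ φ (proj Γ) hfl hφ proj_cont hψ V r η htrv U hUc hU1
    hU2 u huc huU
  obtain ⟨L, hL⟩ := hLLP Γ hΓ u huc hug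
  obtain ⟨C, hC⟩ := hCHN u L hL
  -- the cocycle
  let G : ℝ → Surf Γ → ℝ := fun t x => u (φ t x.out) - u x.out
  have hGp : ∀ t z, G t (proj Γ z) = u (φ t z) - u z := by
    intro t z
    have e1 : proj Γ (proj Γ z).out = proj Γ z := Quotient.out_eq _
    obtain ⟨g, hg⟩ := exists_of_proj_eq e1
    obtain ⟨c, hc⟩ := hug g
    change u (φ t (proj Γ z).out) - u (proj Γ z).out = _
    rw [hg, hφΓ, hc, hc]
    ring
  have hGc : Continuous (fun q : ℝ × Surf Γ => G q.1 q.2) := by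
    refine H61.SF.quot_prod ?_
    have e1 : (fun p : ℝ × ℍ => G p.1 (proj Γ p.2)) = fun p : ℝ × ℍ => u (φ p.1 p.2) - u p.2 := by
      funext p
      exact hGp _ _
    exact e1 ▸ (huc.comp hφ.cont).sub (huc.comp continuous_snd)
  set W : Set (Surf Γ) := {y | y ∈ V ∧ |r y| < η / 2} with hW
  have hWn : μ W = 0 := by
    refine hFLX (Surf Γ) ψ hfl (disp Γ φ) G (disp_cont hφ hφΓ) hGc ?_ ?_ ⟨C, ?_⟩ μ hμ hinv hdr W ?_
    · intro s t x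
      obtain ⟨z, rfl⟩ := proj_surj x
      rw [hGp, hGp, hψ, hGp, hφ.add]
      ring
    · intro t ht x
      obtain ⟨z, rfl⟩ := proj_surj x
      rw [hGp, sub_nonneg]
      have := hmono z ht
      simpa [hφ.zero] using this
    · intro t x
      obtain ⟨z, rfl⟩ := proj_surj x
      rw [hGp, disp_proj hφΓ]
      exact (le_abs_self _).trans (hC _ _)
    · intro x hx
      obtain ⟨z, rfl⟩ := proj_surj x
      rw [hGp, sub_pos]
      exact hstr z hx.1 hx.2 1 one_pos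
  have hWo : IsOpen W := by
    have := htrv.cont.abs.isOpen_inter_preimage htrv.isOpen (isOpen_Iio (a := η / 2))
    exact this
  have hψc : Continuous (ψ h₀) := hfl.cont1 h₀
  refine ⟨ψ h₀ ⁻¹' W, (hWo.preimage hψc).mem_nhds ?_, ?_⟩
  · have hη := htrv.pos
    rw [hσ] at hV hr
    refine ⟨hV, ?_⟩
    rw [hr, abs_zero]
    linarith
  · rw [← Measure.map_apply hψc.measurable hWo.measurableSet, hinv, hWn]

/-- **Measures without drift.** -/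
theorem asm_hh (hPER : T_PER) (hNUL : T_NUL) (hPOI : T_POI)
    (hCIR : T_CIR) (hLFT : T_LFT) (hMON : T_MON) (hCHN : T_CHN) (hLLP : T_LLP)
    (hBXS : T_BXS) (hFRT : T_FRT) (hFLP : T_FLP) (hRTM : T_RTM) (hFRR : T_FRR) (hTRV : T_TRV)
    (hFLX : T_FLX) {Γ : Subgroup SL(2, ℝ)} (hΓ : IsDeckGroup Γ) [MeasurableSpace (Surf Γ)]
    [BorelSpace (Surf Γ)] {φ : ℝ → ℍ → ℍ} (hφ : IsFlow φ) (hC1 : IsC1 φ)
    (hφΓ : ∀ (g : Γ) (t : ℝ) (z : ℍ), φ t (g • z) = g • φ t z) {ψ : ℝ → Surf Γ → Surf Γ}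
    (hψ : ∀ t z, ψ t (proj Γ z) = proj Γ (φ t z)) {E : Set (Surf Γ)}
    (hE : ∀ (z : ℍ) (T : ℝ), 0 < T → φ T z = z → proj Γ z ∈ E) {μ : Measure (Surf Γ)}
    (hμ : IsProbabilityMeasure μ) (hinv : ∀ t, μ.map (ψ t) = μ)
    (hdr : Tendsto (fun T : ℝ => (∫ x, disp Γ φ T x ∂μ) / T) atTop (𝓝 0)) : μ Eᶜ = 0 := by
  have hdisc := hΓ.disc
  obtain ⟨K, hK, hKcov⟩ := hΓ.cocompact
  have hcomp : CompactSpace (Surf Γ) := H61.SF.quot_compact hK hKcov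
  have hT2 : T2Space (Surf Γ) := t2Space_of_properlyDiscontinuousSMul_of_t2Space
  have hsc : SecondCountableTopology (Surf Γ) :=
    ContinuousConstSMul.secondCountableTopology (Γ := Γ) (T := ℍ)
  have hfl : IsFlow ψ := flow_surf hφ hψ
  set A : Set (Surf Γ) := {x | ∃ c > 0, ∃ C : ℝ, ∀ n : ℕ, c * n - C ≤ disp Γ φ n x} with hA
  have hA0 : μ A = 0 := hNUL (Surf Γ) (disp Γ φ) (disp_cont hφ hφΓ) (fun t x => dist_nonneg) μ hμ
    hdr A fun x hx => hx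
  have hrec := hPOI (Surf Γ) ψ hfl μ hμ hinv
  set R : Set (Surf Γ) := {x | ∀ U ∈ 𝓝 x, ∀ N : ℝ, ∃ t ≥ N, ψ t x ∈ U} with hR
  have hR0 : μ Rᶜ = 0 := by
    rw [ae_iff] at hrec
    exact hrec
  set B : Set (Surf Γ) := Eᶜ ∩ Aᶜ ∩ R with hB
  have hB0 : μ B = 0 := by
    refine measure_null_of_locally_null B fun x hx => ?_
    obtain ⟨⟨hxE, hxA⟩, hxR⟩ := hx
    have hnp : ∀ t ≠ 0, ψ t x ≠ x := by
      have key : ∀ t > 0, ψ t x ≠ x := by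
        intro t ht h
        obtain ⟨z, rfl⟩ := proj_surj x
        rw [hψ] at h
        obtain ⟨g, hg⟩ := exists_of_proj_eq h
        by_cases hgz : g • z = z
        · exact hxE (hE z t ht (hg.trans hgz))
        · obtain ⟨c, hc, C, hC⟩ := hPER Γ hΓ φ hφ hφΓ z t ht g hg hgz
          refine hxA ⟨c, hc, C, fun n => ?_⟩
          rw [disp_proj hφΓ]
          exact hC n
      intro t ht h
      rcases lt_or_gt_of_ne ht with h1 | h1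
      · refine key (-t) (by linarith) ?_
        conv_lhs => rw [← h]
        exact hfl.neg t x
      · exact key t h1 h
    obtain ⟨O, hO, hO2⟩ := asm_np hCIR hLFT hMON hCHN hLLP hBXS hFRT hFLP hRTM hFRR hTRV hFLX hΓ hφ
      hC1 hφΓ hψ hμ hinv hdr x hnp hxR
    exact ⟨O, mem_nhdsWithin_of_mem_nhds hO, hO2⟩
  have hsub : Eᶜ ⊆ B ∪ (A ∪ Rᶜ) := by
    intro x hx
    by_cases h1 : x ∈ A
    · exact Or.inr (Or.inl h1)
    · by_cases h2 : x ∈ R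
      · exact Or.inl ⟨⟨hx, h1⟩, h2⟩
      · exact Or.inr (Or.inr h2)
  exact measure_mono_null hsub (measure_union_null hB0 (measure_union_null hA0 hR0))

end Pool.Agent.H59.CFL
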