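import Pool.Agent.H59.CFL.Targets

/-!
# C¹ flows on closed hyperbolic surfaces: flow boxes in the plane (row BXH)

Used for MP_b11560_gt.
-/

set_option autoImplicit false

open Filter Topology Set
open scoped UpperHalfPlane MatrixGroups

namespace Pool.Agent.H59.CFL.BXH

open Pool.Agent.H61.SF (IsFlow)

/-- coordinates in the basis `X, v` -/
noncomputable def linv (X v : ℂ) : ℂ →L[ℝ] ℝ × ℝ :=
  ((crs X v)⁻¹ • (v.im • Complex.reCLM - v.re • Complex.imCLM)).prod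
    ((crs X v)⁻¹ • (X.re • Complex.imCLM - X.im • Complex.reCLM))

theorem linv_apply (X v u : ℂ) : linv X v u = ((crs X v)⁻¹ * crs u v, (crs X v)⁻¹ * crs X u) := by
  simp only [linv, crs, ContinuousLinearMap.prod_apply, smul_apply,
    sub_apply, Complex.reCLM_apply, Complex.imCLM_apply, smul_eq_mul]
  ext <;> ring

theorem lin_left {X v : ℂ} (h : crs X v ≠ 0) (t s : ℝ) : linv X v (t • X + s • v) = (t, s) := by
  rw [linv_apply]
  have h' : X.re * v.im - X.im * v.re ≠ 0 := h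
  ext
  · simp only [crs, Complex.add_re, Complex.add_im, Complex.smul_re, Complex.smul_im, smul_eq_mul]
    field_simp
    ring
  · simp only [crs, Complex.add_re, Complex.add_im, Complex.smul_re, Complex.smul_im, smul_eq_mul]
    field_simp
    ring

theorem lin_right {X v : ℂ} (h : crs X v ≠ 0) (u : ℂ) :
    (linv X v u).1 • X + (linv X v u).2 • v = u := by
  rw [linv_apply]
  have h' : X.re * v.im - X.im * v.re ≠ 0 := h
  apply Complex.ext
  · simp only [crs, Complex.add_re, Complex.smul_re, smul_eq_mul]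
    field_simp
    ring
  · simp only [crs, Complex.add_im, Complex.smul_im, smul_eq_mul]
    field_simp
    ring

/-- a linear map with `D (1,0) = X`, `D (0,1) = v` as an equivalence -/
noncomputable def eqv (X v : ℂ) (h : crs X v ≠ 0) (D : ℝ × ℝ →L[ℝ] ℂ) (h1 : D (1, 0) = X)
    (h2 : D (0, 1) = v) : (ℝ × ℝ) ≃L[ℝ] ℂ :=
  ContinuousLinearEquiv.equivOfInverse D (linv X v)
    (fun p => by
      have : D p = p.1 • X + p.2 • v := by
        rw [← h1, ← h2, ← map_smul, ← map_smul, ← map_add]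
        congr 1
        ext <;> simp
      rw [this, lin_left h])
    (fun u => by
      have : D (linv X v u) = (linv X v u).1 • X + (linv X v u).2 • v := by
        rw [← h1, ← h2, ← map_smul, ← map_smul, ← map_add]
        congr 1
        ext <;> simp
      rw [this, lin_right h])

theorem crs_smul (X v : ℂ) (c : ℝ) : crs X ((c : ℂ) * v) = c * crs X v := by
  simp only [crs, Complex.mul_re, Complex.mul_im, Complex.ofReal_re, Complex.ofReal_im]
  ring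

theorem crs_cont : Continuous (fun p : ℂ × ℂ => crs p.1 p.2) := by
  unfold crs
  fun_prop

/-- the section line is continuous -/
theorem line_cont (z₀ : ℍ) (v : ℂ) {s : ℝ} (hs : 0 < ((z₀ : ℂ) + (s : ℂ) * v).im) :
    ContinuousAt (pt z₀ v) s := by
  unfold pt
  have h1 : ContinuousAt (fun s : ℝ => (z₀ : ℂ) + (s : ℂ) * v) s := by fun_prop
  have h2 : ContinuousAt (UpperHalfPlane.ofComplex : ℂ → ℍ) ((z₀ : ℂ) + (s : ℂ) * v) := by
    have := UpperHalfPlane.contMDiffAt_ofComplex (n := 0) hs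
    exact this.continuousAt
  exact ContinuousAt.comp (f := fun s : ℝ => (z₀ : ℂ) + (s : ℂ) * v) h2 h1

theorem coe_pt (z₀ : ℍ) (v : ℂ) {s : ℝ} (hs : 0 < ((z₀ : ℂ) + (s : ℂ) * v).im) :
    ((pt z₀ v s : ℍ) : ℂ) = (z₀ : ℂ) + (s : ℂ) * v := by
  unfold pt
  rw [UpperHalfPlane.ofComplex_apply_of_im_pos hs]

end Pool.Agent.H59.CFL.BXH

namespace Pool.Agent.H59.CFL

open Pool.Agent.H61.SF (IsFlow)
open BXH

theorem bxh (hFLD : T_FLD) : T_BXH := by
  intro φ hφ hC z₀ hz ρ hρ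
  obtain ⟨hvc, hvd, -, -, -, -, -, hv0⟩ := hFLD φ hφ hC
  have hX0 : vel φ z₀ ≠ 0 := by
    intro h
    obtain ⟨t, ht⟩ := hz
    exact ht (hv0 z₀ h t)
  set X0 : ℂ := vel φ z₀ with hX0def
  set v₁ : ℂ := Complex.I * X0 with hv₁
  have hcrs0 : 0 < crs X0 v₁ := by
    have h1 : crs X0 v₁ = X0.re ^ 2 + X0.im ^ 2 := by
      simp only [crs, hv₁, Complex.mul_re, Complex.mul_im, Complex.I_re, Complex.I_im]
      ring
    rw [h1]
    have h2 : 0 < Complex.normSq X0 := Complex.normSq_pos.2 hX0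
    rw [Complex.normSq_apply] at h2
    nlinarith
  -- the box map
  let F : ℝ × ℂ → ℂ := fun p => (φ p.1 (UpperHalfPlane.ofComplex p.2) : ℂ)
  let G : ℝ × ℝ → ℂ := fun p => (φ p.1 (pt z₀ v₁ p.2) : ℂ)
  have hO : IsOpen {p : ℝ × ℂ | 0 < p.2.im} :=
    isOpen_lt continuous_const (Complex.continuous_im.comp continuous_snd)
  have hG : ∀ p : ℝ × ℝ, 0 < ((z₀ : ℂ) + (p.2 : ℂ) * v₁).im → ContDiffAt ℝ 1 G p := by
    intro p hp
    have h1 : ContDiffAt ℝ 1 F (p.1, (z₀ : ℂ) + (p.2 : ℂ) * v₁) :=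
      hC.contDiffAt (hO.mem_nhds hp)
    have h2 : ContDiffAt ℝ 1 (fun q : ℝ × ℝ => ((q.1, (z₀ : ℂ) + (q.2 : ℂ) * v₁) : ℝ × ℂ)) p := by
      refine ContDiffAt.prodMk contDiffAt_fst ?_
      have h3 : ContDiffAt ℝ 1 (fun q : ℝ × ℝ => (q.2 : ℂ)) p :=
        Complex.ofRealCLM.contDiff.contDiffAt.comp p contDiffAt_snd
      exact contDiffAt_const.add (h3.mul contDiffAt_const)
    exact ContDiffAt.comp (g := F) p h1 h2
  have him0 : 0 < ((z₀ : ℂ) + ((0 : ℝ) : ℂ) * v₁).im := by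
    simpa using z₀.im_pos
  have hpt0 : pt z₀ v₁ 0 = z₀ := by
    unfold pt
    simp
  -- the partial derivatives on the section
  have hDG : ∀ b : ℝ, 0 < ((z₀ : ℂ) + (b : ℂ) * v₁).im →
      HasStrictFDerivAt G (fderiv ℝ G (0, b)) (0, b) ∧
      fderiv ℝ G (0, b) (1, 0) = vel φ (pt z₀ v₁ b) ∧ fderiv ℝ G (0, b) (0, 1) = v₁ := by
    intro b hb
    have h1 : HasStrictFDerivAt G (fderiv ℝ G (0, b)) (0, b) :=
      (hG (0, b) hb).hasStrictFDerivAt one_ne_zero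
    have h2 : HasFDerivAt G (fderiv ℝ G (0, b)) (0, b) := h1.hasFDerivAt
    refine ⟨h1, ?_, ?_⟩
    · have h3 : HasDerivAt (fun t : ℝ => ((t, b) : ℝ × ℝ)) ((1, 0) : ℝ × ℝ) 0 :=
        (hasDerivAt_id (0 : ℝ)).prodMk (hasDerivAt_const (0 : ℝ) b)
      have h4 : HasDerivAt (fun t : ℝ => G (t, b)) (fderiv ℝ G (0, b) (1, 0)) 0 :=
        HasFDerivAt.comp_hasDerivAt (f := fun t : ℝ => ((t, b) : ℝ × ℝ)) (l := G) (0 : ℝ) h2 h3
      have h5 := hvd 0 (pt z₀ v₁ b)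
      rw [hφ.zero] at h5
      exact h4.unique h5
    · have h3 : HasDerivAt (fun s : ℝ => ((0, s) : ℝ × ℝ)) ((0, 1) : ℝ × ℝ) b :=
        (hasDerivAt_const b (0 : ℝ)).prodMk (hasDerivAt_id b)
      have h4 : HasDerivAt (fun s : ℝ => G (0, s)) (fderiv ℝ G (0, b) (0, 1)) b :=
        HasFDerivAt.comp_hasDerivAt (f := fun s : ℝ => ((0, s) : ℝ × ℝ)) (l := G) b h2 h3
      have h5 : HasDerivAt (fun s : ℝ => (z₀ : ℂ) + (s : ℂ) * v₁) v₁ b := by
        have h6 : HasDerivAt (fun s : ℝ => (s : ℂ)) 1 b := Complex.ofRealCLM.hasDerivAt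
        have h7 := (h6.mul_const v₁).const_add (z₀ : ℂ)
        rwa [one_mul] at h7
      have h8 : (fun s : ℝ => G (0, s)) =ᶠ[𝓝 b] fun s : ℝ => (z₀ : ℂ) + (s : ℂ) * v₁ := by
        have h9 : ∀ᶠ s : ℝ in 𝓝 b, 0 < ((z₀ : ℂ) + (s : ℂ) * v₁).im := by
          have : Continuous (fun s : ℝ => ((z₀ : ℂ) + (s : ℂ) * v₁).im) := by fun_prop
          exact this.continuousAt.eventually_const_lt hb
        filter_upwards [h9] with s hs
        change ((φ 0 (pt z₀ v₁ s) : ℍ) : ℂ) = _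
        rw [hφ.zero, coe_pt z₀ v₁ hs]
      exact h4.unique (h5.congr_of_eventuallyEq h8)
  obtain ⟨hst, hd1, hd2⟩ := hDG 0 him0
  rw [hpt0] at hd1
  let L := eqv X0 v₁ hcrs0.ne' (fderiv ℝ G (0, 0)) hd1 hd2
  have hstL : HasStrictFDerivAt G (L : ℝ × ℝ →L[ℝ] ℂ) (0, 0) := hst
  let e : OpenPartialHomeomorph (ℝ × ℝ) ℂ := hstL.toOpenPartialHomeomorph G
  have heG : ∀ p, e p = G p := fun p => rfl
  have hsrc : e.source ∈ 𝓝 ((0, 0) : ℝ × ℝ) :=
    e.open_source.mem_nhds hstL.mem_toOpenPartialHomeomorph_source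
  -- the size of the box
  have hev1 : ∀ᶠ p : ℝ × ℝ in 𝓝 (0, 0), 0 < ((z₀ : ℂ) + (p.2 : ℂ) * v₁).im := by
    have : Continuous (fun p : ℝ × ℝ => ((z₀ : ℂ) + (p.2 : ℂ) * v₁).im) := by fun_prop
    exact this.continuousAt.eventually_const_lt him0
  have hptc : ContinuousAt (fun p : ℝ × ℝ => pt z₀ v₁ p.2) (0, 0) :=
    ContinuousAt.comp (g := pt z₀ v₁) (f := Prod.snd) (line_cont z₀ v₁ him0) continuousAt_snd
  have hev2 : ∀ᶠ p : ℝ × ℝ in 𝓝 (0, 0), dist (φ p.1 (pt z₀ v₁ p.2)) z₀ < ρ := by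
    have h1 : ContinuousAt (fun p : ℝ × ℝ => dist (φ p.1 (pt z₀ v₁ p.2)) z₀) (0, 0) := by
      have h2 : ContinuousAt (fun p : ℝ × ℝ => φ p.1 (pt z₀ v₁ p.2)) (0, 0) :=
        ContinuousAt.comp (g := fun q : ℝ × ℍ => φ q.1 q.2)
          (f := fun p : ℝ × ℝ => (p.1, pt z₀ v₁ p.2)) hφ.cont.continuousAt
          (continuousAt_fst.prodMk hptc)
      exact h2.dist continuousAt_const
    refine h1.eventually_lt_const ?_
    simp only [hpt0, hφ.zero, dist_self]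
    exact hρ
  have hev3 : ∀ᶠ p : ℝ × ℝ in 𝓝 (0, 0), 0 < crs (vel φ (pt z₀ v₁ p.2)) v₁ := by
    have h1 : ContinuousAt (fun p : ℝ × ℝ => crs (vel φ (pt z₀ v₁ p.2)) v₁) (0, 0) := by
      have h2 : ContinuousAt (fun p : ℝ × ℝ => vel φ (pt z₀ v₁ p.2)) (0, 0) :=
        ContinuousAt.comp (g := vel φ) (f := fun p : ℝ × ℝ => pt z₀ v₁ p.2)
          hvc.continuousAt hptc
      exact ContinuousAt.comp (g := fun q : ℂ × ℂ => crs q.1 q.2)
        (f := fun p : ℝ × ℝ => (vel φ (pt z₀ v₁ p.2), v₁)) crs_cont.continuousAt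
        (h2.prodMk continuousAt_const)
    refine h1.eventually_const_lt ?_
    simp only [hpt0]
    exact hcrs0
  obtain ⟨R, hR, hRball⟩ := Metric.mem_nhds_iff.1 (hev1.and (hev2.and (hev3.and hsrc)))
  have hbox : ∀ t s : ℝ, |t| < R → |s| < R → 0 < ((z₀ : ℂ) + (s : ℂ) * v₁).im ∧
      dist (φ t (pt z₀ v₁ s)) z₀ < ρ ∧ 0 < crs (vel φ (pt z₀ v₁ s)) v₁ ∧
      ((t, s) : ℝ × ℝ) ∈ e.source := by
    intro t s ht hs
    have h1 : ((t, s) : ℝ × ℝ) ∈ Metric.ball ((0, 0) : ℝ × ℝ) R := by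
      rw [Metric.mem_ball, Prod.dist_eq, max_lt_iff, Real.dist_eq, Real.dist_eq]
      simpa using ⟨ht, hs⟩
    exact hRball h1
  have hR2 : 0 < R / 2 := by positivity
  set c : ℝ := R / 2 with hc
  have hcs : ∀ s : ℝ, |s| ≤ 1 → |s * c| < R := by
    intro s hs
    rw [abs_mul, abs_of_pos hR2]
    have : |s| * c ≤ 1 * c := mul_le_mul_of_nonneg_right hs hR2.le
    linarith
  have hpts : ∀ s : ℝ, pt z₀ ((c : ℂ) * v₁) s = pt z₀ v₁ (s * c) := by
    intro s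
    unfold pt
    congr 1
    push_cast
    ring
  refine ⟨(c : ℂ) * v₁, c, hR2, fun s hs => ?_, fun s hs => ?_, fun t s ht hs => ?_, ?_, ?_⟩
  · have := (hbox 0 (s * c) (by simpa using hR) (hcs s hs)).1
    have e1 : (z₀ : ℂ) + (s : ℂ) * ((c : ℂ) * v₁) = (z₀ : ℂ) + ((s * c : ℝ) : ℂ) * v₁ := by
      push_cast
      ring
    rw [e1]
    exact this
  · rw [crs_smul, hpts]
    exact mul_pos hR2 (hbox 0 (s * c) (by simpa using hR) (hcs s hs)).2.2.1
  · rw [hpts]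
    exact (hbox t (s * c) (by linarith) (hcs s hs)).2.1
  · let B : ℝ × ℝ →L[ℝ] ℝ × ℝ := (ContinuousLinearMap.fst ℝ ℝ ℝ).prod
      (c⁻¹ • ContinuousLinearMap.snd ℝ ℝ ℝ)
    refine ⟨fun u => B (e.symm u), fun t s ht hs => ?_, fun b hb => ?_⟩
    · have h1 := (hbox t (s * c) (by linarith) (hcs s hs.le)).2.2.2
      have h2 : e.symm (G (t, s * c)) = (t, s * c) := e.left_inv h1
      have h3 : ((φ t (pt z₀ ((c : ℂ) * v₁) s) : ℍ) : ℂ) = G (t, s * c) := by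
        rw [hpts]
      change B (e.symm ((φ t (pt z₀ ((c : ℂ) * v₁) s) : ℍ) : ℂ)) = (t, s)
      rw [h3, h2]
      change (t, c⁻¹ * (s * c)) = (t, s)
      have h4 : c⁻¹ * (s * c) = s := by field_simp
      rw [h4]
    · obtain ⟨b1, -, b3, b4⟩ := hbox 0 (b * c) (by simpa using hR) (hcs b hb.le)
      obtain ⟨hst', hd1', hd2'⟩ := hDG (b * c) b1
      let L' := eqv (vel φ (pt z₀ v₁ (b * c))) v₁ b3.ne' (fderiv ℝ G (0, b * c)) hd1' hd2'
      have hpb : e (0, b * c) = ((pt z₀ ((c : ℂ) * v₁) b : ℍ) : ℂ) := by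
        rw [heG, hpts]
        change ((φ 0 (pt z₀ v₁ (b * c)) : ℍ) : ℂ) = _
        rw [hφ.zero]
      have hsy : e.symm ((pt z₀ ((c : ℂ) * v₁) b : ℍ) : ℂ) = (0, b * c) := by
        rw [← hpb]
        exact e.left_inv b4
      have htgt : ((pt z₀ ((c : ℂ) * v₁) b : ℍ) : ℂ) ∈ e.target := by
        rw [← hpb]
        exact e.map_source b4
      have hder : HasFDerivAt e.symm (L'.symm : ℂ →L[ℝ] ℝ × ℝ)
          ((pt z₀ ((c : ℂ) * v₁) b : ℍ) : ℂ) := by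
        refine e.hasFDerivAt_symm htgt ?_
        rw [hsy]
        exact hst'.hasFDerivAt
      refine ⟨B.comp (L'.symm : ℂ →L[ℝ] ℝ × ℝ), B.hasFDerivAt.comp _ hder, ?_, ?_⟩
      · have h1 : L'.symm (vel φ (pt z₀ ((c : ℂ) * v₁) b)) = (1, 0) := by
          rw [L'.symm_apply_eq, hpts]
          exact hd1'.symm
        change B (L'.symm (vel φ (pt z₀ ((c : ℂ) * v₁) b))) = (1, 0)
        rw [h1]
        change ((1 : ℝ), c⁻¹ * (0 : ℝ)) = (1, 0)
        rw [mul_zero]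
      · have h1 : L'.symm ((c : ℂ) * v₁) = (0, c) := by
          rw [L'.symm_apply_eq]
          have h2 : ((0, c) : ℝ × ℝ) = c • ((0, 1) : ℝ × ℝ) := by
            ext <;> simp
          rw [h2, map_smul]
          change _ = c • (fderiv ℝ G (0, b * c) (0, 1))
          rw [hd2', Complex.real_smul]
        change B (L'.symm ((c : ℂ) * v₁)) = (0, 1)
        rw [h1]
        change ((0 : ℝ), c⁻¹ * c) = (0, 1)
        rw [inv_mul_cancel₀ hR2.ne']
  · intro U hU hUbox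
    let M : ℝ × ℝ ≃ₜ ℝ × ℝ := (Homeomorph.refl ℝ).prodCongr (Homeomorph.mulRight₀ c hR2.ne')
    have hM : ∀ p, M p = (p.1, p.2 * c) := fun p => rfl
    have hMU : IsOpen (M '' U) := M.isOpenMap U hU
    have hMs : M '' U ⊆ e.source := by
      rintro _ ⟨p, hp, rfl⟩
      obtain ⟨h1, h2⟩ := hUbox p hp
      exact (hbox p.1 (p.2 * c) (by linarith) (hcs p.2 h2.le)).2.2.2
    have hE : IsOpen (e '' (M '' U)) := e.isOpen_image_of_subset_source hMU hMs
    have hEq : ((fun p : ℝ × ℝ => φ p.1 (pt z₀ ((c : ℂ) * v₁) p.2)) '' U) =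
        (fun z : ℍ => (z : ℂ)) ⁻¹' (e '' (M '' U)) := by
      ext z
      constructor
      · rintro ⟨p, hp, rfl⟩
        refine ⟨M p, ⟨p, hp, rfl⟩, ?_⟩
        rw [heG, hM]
        change ((φ p.1 (pt z₀ v₁ (p.2 * c)) : ℍ) : ℂ) = ((φ p.1 (pt z₀ ((c : ℂ) * v₁) p.2) : ℍ) : ℂ)
        rw [hpts]
      · rintro ⟨_, ⟨p, hp, rfl⟩, h⟩
        refine ⟨p, hp, ?_⟩
        rw [heG, hM] at h
        change ((φ p.1 (pt z₀ v₁ (p.2 * c)) : ℍ) : ℂ) = (z : ℂ) at h
        change φ p.1 (pt z₀ ((c : ℂ) * v₁) p.2) = z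
        rw [hpts]
        exact UpperHalfPlane.ext_iff.2 h
    rw [hEq]
    exact hE.preimage UpperHalfPlane.continuous_coe

end Pool.Agent.H59.CFL
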