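import Pool.Agent.H59.CFL.BXH
import Pool.Agent.H59.CFL.Asm

/-!
# C¹ flows on closed hyperbolic surfaces: flow boxes in the surface (row BXS)

Used for MP_b11560_gt.
-/

set_option autoImplicit false

open Filter Topology Set
open scoped UpperHalfPlane MatrixGroups

namespace Pool.Agent.H59.CFL

open Pool.Agent.H61.SF (IsFlow)
open BXH

theorem bxs (hINJ : T_INJ) (hBXH : T_BXH) (hORI : T_ORI) : T_BXS := by
  intro Γ hΓ φ hφ hC hφΓ ψ hψ z₀ hnr
  obtain ⟨c, hc, hinj⟩ := hINJ Γ hΓ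
  obtain ⟨v, δ, hbox⟩ := hBXH φ hφ hC z₀ hnr (c / 2) (by positivity)
  have htriv : ∀ (g : Γ) (w : ℍ), dist (g • w) w < c → ∀ z : ℍ, g • z = z := by
    intro g w hw z
    by_contra hz
    exact absurd (hinj g ⟨z, hz⟩ w) (not_le.2 hw)
  let σ : ℝ → Surf Γ := fun s => proj Γ (pt z₀ v (max (-1) (min 1 s)))
  have hclamp : ∀ s : ℝ, |max (-1) (min 1 s)| ≤ 1 := by
    intro s
    rw [abs_le]
    exact ⟨le_max_left _ _, max_le (by norm_num) (min_le_left _ _)⟩
  have hclampe : ∀ s : ℝ, |s| ≤ 1 → max (-1) (min 1 s) = s := by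
    intro s hs
    rw [abs_le] at hs
    rw [min_eq_right hs.2, max_eq_right hs.1]
  have hσ : ∀ s : ℝ, |s| ≤ 1 → σ s = proj Γ (pt z₀ v s) := by
    intro s hs
    change proj Γ (pt z₀ v (max (-1) (min 1 s))) = _
    rw [hclampe s hs]
  have hψσ : ∀ t s : ℝ, |s| < 1 → ψ t (σ s) = proj Γ (φ t (pt z₀ v s)) := by
    intro t s hs
    rw [hσ s hs.le, hψ]
  obtain ⟨N, hN, -⟩ := hbox.inv
  refine ⟨σ, δ, ?_, hbox.pos, ?_, ?_, ?_, ?_⟩
  · rw [hσ 0 (by simp)]
    unfold pt
    simp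
  · refine proj_cont.comp (continuous_iff_continuousAt.2 fun s => ?_)
    have h1 : ContinuousAt (pt z₀ v) (max (-1) (min 1 s)) :=
      line_cont z₀ v (hbox.im _ (hclamp s))
    have h2 : Continuous (fun s : ℝ => max (-1) (min 1 s)) := by fun_prop
    exact ContinuousAt.comp (f := fun s : ℝ => max (-1) (min 1 s)) h1 h2.continuousAt
  · intro t s t' s' ht hs ht' hs' h
    rw [hψσ t s hs, hψσ t' s' hs'] at h
    obtain ⟨g, hg⟩ := exists_of_proj_eq h
    have h1 : dist (g • φ t' (pt z₀ v s')) (φ t' (pt z₀ v s')) < c := by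
      rw [← hg]
      have h2 := hbox.near t s ht hs.le
      have h3 := hbox.near t' s' ht' hs'.le
      have h4 := dist_triangle_right (φ t (pt z₀ v s)) (φ t' (pt z₀ v s')) z₀
      linarith
    have h5 := htriv g _ h1 (φ t' (pt z₀ v s'))
    rw [h5] at hg
    have h6 := hN t s ht hs
    rw [hg, hN t' s' ht' hs'] at h6
    rw [Prod.mk.injEq] at h6
    exact ⟨h6.1.symm, h6.2.symm⟩
  · intro U hU hUb
    have hopen : IsOpenMap (proj Γ) := isOpenMap_quotient_mk'_mul
    have h1 : ((fun p : ℝ × ℝ => ψ p.1 (σ p.2)) '' U) =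
        proj Γ '' ((fun p : ℝ × ℝ => φ p.1 (pt z₀ v p.2)) '' U) := by
      rw [image_image]
      refine image_congr fun p hp => ?_
      exact hψσ p.1 p.2 (hUb p hp).2
    rw [h1]
    exact hopen _ (hbox.isOpen U hU hUb)
  · intro T a b ha hb h
    rw [hψσ T a ha, hσ b hb.le] at h
    obtain ⟨g, hg⟩ := exists_of_proj_eq h
    obtain ⟨r, hr, hori⟩ := hORI φ hφ hC z₀ v δ (c / 2) hbox (g : SL(2, ℝ))
      (fun t z => hφΓ g t z) T a b ha hb hg
    -- nearby points
    have hnear : ∀ᶠ s : ℝ in 𝓝 a, dist (φ T (pt z₀ v s)) (g • z₀) < c / 2 := by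
      have h1 : ContinuousAt (fun s : ℝ => dist (φ T (pt z₀ v s)) (g • z₀)) a := by
        have h2 : ContinuousAt (pt z₀ v) a := line_cont z₀ v (hbox.im a ha.le)
        have h3 : ContinuousAt (fun s : ℝ => φ T (pt z₀ v s)) a :=
          ContinuousAt.comp (g := φ T) (hφ.cont1 T).continuousAt h2
        exact h3.dist continuousAt_const
      refine h1.eventually_lt_const ?_
      change dist (φ T (pt z₀ v a)) (g • z₀) < c / 2
      rw [hg, dist_smul_gamma]
      have := hbox.near 0 b (by simpa using hbox.pos) hb.le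
      rwa [hφ.zero] at this
    obtain ⟨r', hr', hnear'⟩ := Metric.eventually_nhds_iff.1 hnear
    refine ⟨min r r', lt_min hr hr', fun s θ s' hs hs1 hθ hs' hst => ?_⟩
    rw [hψσ T s hs1, hψσ θ s' hs'] at hst
    obtain ⟨g', hg'⟩ := exists_of_proj_eq hst
    have h1 : dist (φ T (pt z₀ v s)) (g • z₀) < c / 2 :=
      hnear' (by rw [Real.dist_eq]; exact hs.trans_le (min_le_right _ _))
    have h2 : dist (φ T (pt z₀ v s)) (g' • z₀) < c / 2 := by
      rw [hg', dist_smul_gamma]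
      exact hbox.near θ s' hθ hs'.le
    have h3 : dist ((g⁻¹ * g') • z₀) z₀ < c := by
      have h4 : dist ((g⁻¹ * g') • z₀) z₀ = dist (g' • z₀) (g • z₀) := by
        rw [← dist_smul_gamma g, smul_smul, mul_inv_cancel_left]
      rw [h4]
      have h5 := dist_triangle_left (g' • z₀) (g • z₀) (φ T (pt z₀ v s))
      linarith
    have h6 := htriv _ z₀ h3 (φ θ (pt z₀ v s'))
    have h7 : g' • φ θ (pt z₀ v s') = g • φ θ (pt z₀ v s') := by
      rw [mul_smul, inv_smul_eq_iff] at h6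
      exact h6
    rw [h7] at hg'
    exact hori s θ s' (hs.trans_le (min_le_left _ _)) hs1 hθ hs' hg'

end Pool.Agent.H59.CFL
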