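import Pool.Agent.H61.SF.Surf

/-!
# C¹ flows on closed hyperbolic surfaces: definitions

Used for MP_b11560_gt (board `cfl_modules`).
-/

set_option autoImplicit false

open MeasureTheory Filter Topology Set
open scoped UpperHalfPlane MatrixGroups

namespace Pool.Agent.H59.CFL

/-- `Γ` is the group of deck transformations of a closed oriented hyperbolic surface. -/
structure IsDeckGroup (Γ : Subgroup SL(2, ℝ)) : Prop where
  disc : ProperlyDiscontinuousSMul Γ ℍ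
  free : ∀ (g : Γ) (z : ℍ), g • z = z → ∀ w : ℍ, g • w = w
  cocompact : ∃ K : Set ℍ, IsCompact K ∧ ∀ z : ℍ, ∃ g : Γ, g • z ∈ K

/-- The closed surface `ℍ / Γ`, with the quotient topology. -/
abbrev Surf (Γ : Subgroup SL(2, ℝ)) : Type := Quotient (MulAction.orbitRel Γ ℍ)

/-- The projection of the hyperbolic plane to the surface. -/
noncomputable def proj (Γ : Subgroup SL(2, ℝ)) (z : ℍ) : Surf Γ := Quotient.mk _ z

/-- The displacement at the time `T` of a point above `x`. -/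
noncomputable def disp (Γ : Subgroup SL(2, ℝ)) (φ : ℝ → ℍ → ℍ) (T : ℝ) (x : Surf Γ) : ℝ :=
  dist (φ T x.out) x.out

/-- The flow `φ` of the hyperbolic plane is of class `C¹`. -/
def IsC1 (φ : ℝ → ℍ → ℍ) : Prop :=
  ContDiffOn ℝ 1 (fun p : ℝ × ℂ => (φ p.1 (UpperHalfPlane.ofComplex p.2) : ℂ)) {p | 0 < p.2.im}

/-- The velocity of the flow at `z`. -/
noncomputable def vel (φ : ℝ → ℍ → ℍ) (z : ℍ) : ℂ := deriv (fun t : ℝ => (φ t z : ℂ)) 0

/-- The differential of the time `t` map at `z`. -/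
noncomputable def spd (φ : ℝ → ℍ → ℍ) (t : ℝ) (z : ℍ) : ℂ →L[ℝ] ℂ :=
  fderiv ℝ (fun w : ℂ => (φ t (UpperHalfPlane.ofComplex w) : ℂ)) (z : ℂ)

/-- The point `z₀ + s v` of the plane (of interest when it lies in the upper half plane). -/
noncomputable def pt (z₀ : ℍ) (v : ℂ) (s : ℝ) : ℍ :=
  UpperHalfPlane.ofComplex ((z₀ : ℂ) + (s : ℂ) * v)

/-- The area form of the plane. -/
noncomputable def crs (a b : ℂ) : ℝ := a.re * b.im - a.im * b.re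

/-- A flow box in the hyperbolic plane. -/
structure IsHBox (φ : ℝ → ℍ → ℍ) (z₀ : ℍ) (v : ℂ) (δ ρ : ℝ) : Prop where
  pos : 0 < δ
  im : ∀ s : ℝ, |s| ≤ 1 → 0 < ((z₀ : ℂ) + (s : ℂ) * v).im
  crs_pos : ∀ s : ℝ, |s| ≤ 1 → 0 < crs (vel φ (pt z₀ v s)) v
  near : ∀ t s : ℝ, |t| < δ → |s| ≤ 1 → dist (φ t (pt z₀ v s)) z₀ < ρ
  inv : ∃ N : ℂ → ℝ × ℝ, (∀ t s : ℝ, |t| < δ → |s| < 1 → N (φ t (pt z₀ v s)) = (t, s)) ∧
    ∀ b : ℝ, |b| < 1 → ∃ N' : ℂ →L[ℝ] ℝ × ℝ, HasFDerivAt N N' (pt z₀ v b : ℂ) ∧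
      N' (vel φ (pt z₀ v b)) = (1, 0) ∧ N' v = (0, 1)
  isOpen : ∀ U : Set (ℝ × ℝ), IsOpen U → (∀ p ∈ U, |p.1| < δ ∧ |p.2| < 1) →
    IsOpen ((fun p : ℝ × ℝ => φ p.1 (pt z₀ v p.2)) '' U)

/-- A flow box of the flow `ψ` with the section `σ`; the return maps preserve the
orientation of the section. -/
structure IsBox {S : Type} [TopologicalSpace S] (ψ : ℝ → S → S) (σ : ℝ → S) (δ : ℝ) : Prop where
  pos : 0 < δ
  cont : Continuous σ
  inj : ∀ t s t' s' : ℝ, |t| < δ → |s| < 1 → |t'| < δ → |s'| < 1 →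
    ψ t (σ s) = ψ t' (σ s') → t = t' ∧ s = s'
  isOpen : ∀ U : Set (ℝ × ℝ), IsOpen U → (∀ p ∈ U, |p.1| < δ ∧ |p.2| < 1) →
    IsOpen ((fun p : ℝ × ℝ => ψ p.1 (σ p.2)) '' U)
  ori : ∀ T a b : ℝ, |a| < 1 → |b| < 1 → ψ T (σ a) = σ b → ∃ r > 0, ∀ s θ s' : ℝ,
    |s - a| < r → |s| < 1 → |θ| < δ → |s'| < 1 → ψ T (σ s) = ψ θ (σ s') →
    (a < s → b < s') ∧ (s < a → s' < b)

/-- A return map `P`, with the return time `Tm`, of the section `σ` near `0`, to the right, such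
that the section between `-ε` and `P ε` is not met in the meantime. -/
structure IsRet {S : Type} [TopologicalSpace S] (ψ : ℝ → S → S) (σ : ℝ → S) (δ ε : ℝ)
    (Tm P : ℝ → ℝ) : Prop where
  epos : 0 < ε
  elt : ε < P (-ε)
  plt : P ε < 1
  contT : ContinuousOn Tm (Icc (-ε) ε)
  contP : ContinuousOn P (Icc (-ε) ε)
  mono : StrictMonoOn P (Icc (-ε) ε)
  tpos : ∀ s ∈ Icc (-ε) ε, 0 < Tm s
  ret : ∀ s ∈ Icc (-ε) ε, ψ (Tm s) (σ s) = σ (P s)
  fr : ∀ s ∈ Icc (-ε) ε, ∀ t ς : ℝ, -(δ / 4) ≤ t → t ≤ Tm s + δ / 4 → -ε ≤ ς → ς ≤ P ε →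
    ψ t (σ s) = σ ς → (t = 0 ∧ ς = s) ∨ (t = Tm s ∧ ς = P s)

/-- A neighbourhood `V` of a closed transversal curve `{r = 0}` of the flow `ψ`; the function `r`
is the time since the crossing of the curve. -/
structure IsTrv {S : Type} [TopologicalSpace S] (ψ : ℝ → S → S) (V : Set S) (r : S → ℝ)
    (η : ℝ) : Prop where
  pos : 0 < η
  isOpen : IsOpen V
  cont : ContinuousOn r V
  lt : ∀ y ∈ V, |r y| < η
  move : ∀ y ∈ V, ∀ h : ℝ, |r y + h| < η → ψ h y ∈ V ∧ r (ψ h y) = r y + h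
  closed : ∀ η' < η, IsClosed {y | y ∈ V ∧ |r y| ≤ η'}

end Pool.Agent.H59.CFL
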