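import Pool.Agent.H59.CFL.Targets

/-!
# C¹ flows on closed hyperbolic surfaces: the differentials of the flow (rows FLD, ORP)

Used for MP_b11560_gt.
-/

set_option autoImplicit false

open Filter Topology Set
open scoped UpperHalfPlane MatrixGroups

namespace Pool.Agent.H59.CFL.FLD

open Pool.Agent.H61.SF (IsFlow)

/-- the flow on the plane -/
noncomputable def F (φ : ℝ → ℍ → ℍ) (p : ℝ × ℂ) : ℂ :=
  (φ p.1 (UpperHalfPlane.ofComplex p.2) : ℂ)

theorem hO : IsOpen {p : ℝ × ℂ | 0 < p.2.im} :=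
  isOpen_lt continuous_const (Complex.continuous_im.comp continuous_snd)

variable {φ : ℝ → ℍ → ℍ}

theorem F_coe (t : ℝ) (z : ℍ) : F φ (t, (z : ℂ)) = (φ t z : ℂ) := by
  unfold F
  simp

theorem hF (hC : IsC1 φ) (t : ℝ) (z : ℍ) : HasFDerivAt (F φ) (fderiv ℝ (F φ) (t, z)) (t, (z : ℂ)) :=
  ((hC.contDiffAt (hO.mem_nhds z.im_pos)).differentiableAt one_ne_zero).hasFDerivAt

theorem hFc (hC : IsC1 φ) : Continuous (fun p : ℝ × ℍ => fderiv ℝ (F φ) (p.1, (p.2 : ℂ))) := by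
  have h1 : ContinuousOn (fderiv ℝ (F φ)) {p : ℝ × ℂ | 0 < p.2.im} :=
    hC.continuousOn_fderiv_of_isOpen hO le_rfl
  refine h1.comp_continuous (f := fun p : ℝ × ℍ => (p.1, (p.2 : ℂ))) ?_ fun p => p.2.im_pos
  exact continuous_fst.prodMk (UpperHalfPlane.continuous_coe.comp continuous_snd)

theorem spd_eq (hC : IsC1 φ) (t : ℝ) (z : ℍ) :
    HasFDerivAt (fun w : ℂ => (φ t (UpperHalfPlane.ofComplex w) : ℂ))
      ((fderiv ℝ (F φ) (t, z)).comp (ContinuousLinearMap.inr ℝ ℝ ℂ)) (z : ℂ) := by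
  have h1 : HasFDerivAt (fun w : ℂ => ((t, w) : ℝ × ℂ)) (ContinuousLinearMap.inr ℝ ℝ ℂ) (z : ℂ) :=
    hasFDerivAt_prodMk_right t (z : ℂ)
  exact HasFDerivAt.comp (g := F φ) (f := fun w : ℂ => ((t, w) : ℝ × ℂ)) (z : ℂ) (hF hC t z) h1

theorem spd_has (hC : IsC1 φ) (t : ℝ) (z : ℍ) :
    HasFDerivAt (fun w : ℂ => (φ t (UpperHalfPlane.ofComplex w) : ℂ)) (spd φ t z) (z : ℂ) := by
  have h := spd_eq hC t z
  have h2 : spd φ t z = _ := h.fderiv
  rw [h2]
  exact h

theorem vel_has (hC : IsC1 φ) (z : ℍ) :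
    HasDerivAt (fun s : ℝ => (φ s z : ℂ)) (fderiv ℝ (F φ) (0, z) (1, 0)) 0 := by
  have h1 : HasDerivAt (fun t : ℝ => ((t, (z : ℂ)) : ℝ × ℂ)) ((1, 0) : ℝ × ℂ) 0 :=
    (hasDerivAt_id (0 : ℝ)).prodMk (hasDerivAt_const (0 : ℝ) (z : ℂ))
  have h2 := HasFDerivAt.comp_hasDerivAt (f := fun t : ℝ => ((t, (z : ℂ)) : ℝ × ℂ)) (l := F φ)
    (0 : ℝ) (hF hC 0 z) h1
  have h3 : (F φ ∘ fun t : ℝ => ((t, (z : ℂ)) : ℝ × ℂ)) = fun s : ℝ => (φ s z : ℂ) := by
    funext s
    exact F_coe s z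
  rwa [h3] at h2

theorem vel_eq (hC : IsC1 φ) (z : ℍ) : vel φ z = fderiv ℝ (F φ) (0, z) (1, 0) :=
  (vel_has hC z).deriv

theorem vel_has' (hφ : IsFlow φ) (hC : IsC1 φ) (t : ℝ) (z : ℍ) :
    HasDerivAt (fun s : ℝ => (φ s z : ℂ)) (vel φ (φ t z)) t := by
  have h1 : HasDerivAt (fun s : ℝ => (φ s (φ t z) : ℂ)) (vel φ (φ t z)) (t - t) := by
    rw [sub_self, vel_eq hC]
    exact vel_has hC _
  have h2 := HasDerivAt.comp_sub_const t t h1
  have h3 : (fun s : ℝ => (φ (s - t) (φ t z) : ℂ)) = fun s : ℝ => (φ s z : ℂ) := by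
    funext s
    rw [← hφ.add, sub_add_cancel]
  rwa [h3] at h2

theorem spd_vel (hφ : IsFlow φ) (hC : IsC1 φ) (t : ℝ) (z : ℍ) :
    spd φ t z (vel φ z) = vel φ (φ t z) := by
  have h1 : HasDerivAt (fun s : ℝ => (φ s z : ℂ)) (vel φ z) 0 := by
    have := vel_has' hφ hC 0 z
    rwa [hφ.zero] at this
  have h2 : HasFDerivAt (fun w : ℂ => (φ t (UpperHalfPlane.ofComplex w) : ℂ)) (spd φ t z)
      ((fun s : ℝ => (φ s z : ℂ)) 0) := by
    simp only [hφ.zero]
    exact spd_has hC t z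
  have h3 := HasFDerivAt.comp_hasDerivAt (f := fun s : ℝ => (φ s z : ℂ))
    (l := fun w : ℂ => (φ t (UpperHalfPlane.ofComplex w) : ℂ)) (0 : ℝ) h2 h1
  have h4 : ((fun w : ℂ => (φ t (UpperHalfPlane.ofComplex w) : ℂ)) ∘ fun s : ℝ => (φ s z : ℂ)) =
      fun s : ℝ => (φ s (φ t z) : ℂ) := by
    funext s
    simp only [Function.comp, UpperHalfPlane.ofComplex_apply]
    rw [← hφ.add, ← hφ.add, add_comm]
  rw [h4] at h3
  have h5 := vel_has' hφ hC 0 (φ t z)
  rw [hφ.zero] at h5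
  exact h3.unique h5

theorem ev_im (z : ℍ) : ∀ᶠ w : ℂ in 𝓝 (z : ℂ), 0 < w.im :=
  Complex.continuous_im.continuousAt.eventually_const_lt z.im_pos

theorem spd_zero (hφ : IsFlow φ) (hC : IsC1 φ) (z : ℍ) :
    spd φ 0 z = ContinuousLinearMap.id ℝ ℂ := by
  refine (spd_has hC 0 z).unique ((hasFDerivAt_id (z : ℂ)).congr_of_eventuallyEq ?_)
  filter_upwards [ev_im z] with w hw
  rw [hφ.zero, UpperHalfPlane.ofComplex_apply_of_im_pos hw]
  rfl

theorem spd_inj (hφ : IsFlow φ) (hC : IsC1 φ) (t : ℝ) (z : ℍ) (v : ℂ) (hv : spd φ t z v = 0) :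
    v = 0 := by
  have h1 : HasFDerivAt (fun w : ℂ => (φ (-t) (UpperHalfPlane.ofComplex w) : ℂ))
      (spd φ (-t) (φ t z)) ((fun w : ℂ => (φ t (UpperHalfPlane.ofComplex w) : ℂ)) (z : ℂ)) := by
    simp only [UpperHalfPlane.ofComplex_apply]
    exact spd_has hC (-t) (φ t z)
  have h2 := HasFDerivAt.comp (g := fun w : ℂ => (φ (-t) (UpperHalfPlane.ofComplex w) : ℂ))
    (f := fun w : ℂ => (φ t (UpperHalfPlane.ofComplex w) : ℂ)) (z : ℂ) h1 (spd_has hC t z)
  have h3 : HasFDerivAt ((fun w : ℂ => (φ (-t) (UpperHalfPlane.ofComplex w) : ℂ)) ∘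
      (fun w : ℂ => (φ t (UpperHalfPlane.ofComplex w) : ℂ))) (ContinuousLinearMap.id ℝ ℂ)
      (z : ℂ) := by
    refine (hasFDerivAt_id (z : ℂ)).congr_of_eventuallyEq ?_
    filter_upwards [ev_im z] with w hw
    simp only [Function.comp, UpperHalfPlane.ofComplex_apply]
    rw [hφ.neg, UpperHalfPlane.ofComplex_apply_of_im_pos hw]
    rfl
  have h4 := h2.unique h3
  have h5 : (spd φ (-t) (φ t z)) (spd φ t z v) = v := by
    have := congrArg (fun A : ℂ →L[ℝ] ℂ => A v) h4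
    exact this
  rw [hv, map_zero] at h5
  exact h5.symm

theorem rest (hφ : IsFlow φ) (hC : IsC1 φ) (z : ℍ) (hz : vel φ z = 0) (t : ℝ) : φ t z = z := by
  have h1 : ∀ s : ℝ, HasDerivAt (fun s : ℝ => (φ s z : ℂ)) 0 s := by
    intro s
    have := vel_has' hφ hC s z
    rwa [← spd_vel hφ hC, hz, map_zero] at this
  have h2 := is_const_of_deriv_eq_zero (f := fun s : ℝ => (φ s z : ℂ))
    (fun s => (h1 s).differentiableAt) (fun s => (h1 s).deriv) t 0
  simp only [hφ.zero] at h2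
  exact UpperHalfPlane.ext_iff.2 h2

end Pool.Agent.H59.CFL.FLD

namespace Pool.Agent.H59.CFL

open FLD

theorem fld : T_FLD := by
  intro φ hφ hC
  refine ⟨?_, vel_has' hφ hC, spd_has hC, ?_, spd_vel hφ hC, spd_inj hφ hC, spd_zero hφ hC,
    rest hφ hC⟩
  · have h1 : vel φ = fun z : ℍ => fderiv ℝ (F φ) (0, (z : ℂ)) (1, 0) := by
      funext z
      exact vel_eq hC z
    rw [h1]
    exact ((hFc hC).comp (continuous_const.prodMk continuous_id)).clm_apply continuous_const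
  · have h1 : (fun p : ℝ × ℍ => spd φ p.1 p.2) = fun p : ℝ × ℍ =>
        (fderiv ℝ (F φ) (p.1, (p.2 : ℂ))).comp (ContinuousLinearMap.inr ℝ ℝ ℂ) := by
      funext p
      exact (spd_eq hC p.1 p.2).fderiv
    rw [h1]
    exact (hFc hC).clm_comp continuous_const

theorem orp (hFLD : T_FLD) : T_ORP := by
  intro φ hφ hC z v hv t
  obtain ⟨hvc, -, -, hsc, hsv, hsi, hs0, -⟩ := hFLD φ hφ hC
  have hcont : Continuous (fun t : ℝ => crs (vel φ (φ t z)) (spd φ t z v)) := by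
    have h1 : Continuous (fun t : ℝ => vel φ (φ t z)) := hvc.comp (hφ.cont2 z)
    have h2 : Continuous (fun t : ℝ => spd φ t z v) :=
      (hsc.comp (continuous_id.prodMk continuous_const)).clm_apply continuous_const
    unfold crs
    exact ((Complex.continuous_re.comp h1).mul (Complex.continuous_im.comp h2)).sub
      ((Complex.continuous_im.comp h1).mul (Complex.continuous_re.comp h2))
  have hne : ∀ t : ℝ, crs (vel φ (φ t z)) (spd φ t z v) ≠ 0 := by
    intro t h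
    rw [← hsv t z] at h
    set A := spd φ t z
    set x := vel φ z
    have hx : x ≠ 0 := by
      intro hx
      rw [hx] at hv
      simp [crs] at hv
    have hAx : A x ≠ 0 := fun h' => hx (hsi t z x h')
    -- `A v` is a real multiple of `A x`
    obtain ⟨c, hc⟩ : ∃ c : ℝ, A v = c • A x := by
      have h1 : (A x).re * (A v).im - (A x).im * (A v).re = 0 := h
      have h2 : 0 < (A x).re ^ 2 + (A x).im ^ 2 := by
        have := Complex.normSq_pos.2 hAx
        rw [Complex.normSq_apply] at this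
        nlinarith
      refine ⟨((A x).re * (A v).re + (A x).im * (A v).im) / ((A x).re ^ 2 + (A x).im ^ 2), ?_⟩
      apply Complex.ext
      · rw [Complex.smul_re, smul_eq_mul]
        field_simp
        linear_combination (-(A x).im) * h1
      · rw [Complex.smul_im, smul_eq_mul]
        field_simp
        linear_combination ((A x).re) * h1
    have h3 : v - c • x = 0 := by
      refine hsi t z _ ?_
      rw [map_sub, map_smul]
      exact sub_eq_zero.2 hc
    have h4 : v = c • x := sub_eq_zero.1 h3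
    rw [h4] at hv
    simp only [crs, Complex.smul_re, Complex.smul_im, smul_eq_mul] at hv
    linarith [hv, mul_comm x.re (c * x.im), mul_comm x.im (c * x.re)]
  have h0 : 0 < crs (vel φ (φ 0 z)) (spd φ 0 z v) := by
    rw [hφ.zero, hs0]
    exact hv
  by_contra hcon
  push Not at hcon
  have hlt : crs (vel φ (φ t z)) (spd φ t z v) < 0 := lt_of_le_of_ne hcon (hne t)
  obtain ⟨s, -, hs⟩ : ∃ s ∈ uIcc t 0, crs (vel φ (φ s z)) (spd φ s z v) = 0 := by
    have h1 := intermediate_value_uIcc (a := t) (b := 0)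
      (f := fun t : ℝ => crs (vel φ (φ t z)) (spd φ t z v)) hcont.continuousOn
    have h2 : (0 : ℝ) ∈ uIcc (crs (vel φ (φ t z)) (spd φ t z v))
        (crs (vel φ (φ 0 z)) (spd φ 0 z v)) := by
      rw [mem_uIcc]
      exact Or.inl ⟨hlt.le, h0.le⟩
    exact h1 h2
  exact hne s hs

end Pool.Agent.H59.CFL
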