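import Pool.Agent.H59.CFL.Targets

/-!
# Row FRR of the board `cfl_modules` (MP_b11560_gt)
-/

set_option autoImplicit false

open MeasureTheory Filter Topology Set

namespace Pool.Agent.H59.CFL

open Pool.Agent.H61.SF (IsFlow)

theorem frr : T_FRR := by
  intro S _ _ ψ σ δ hψ hB T b hT hb hb2 hTb hno ε₀ Tm P hε₀ helt hplt hTm0 hP0 hcT hcP hmono
    htpos hret
  by_contra hcon
  push Not at hcon
  have hδ := hB.pos
  -- the small intervals
  have hεn : ∀ n : ℕ, 0 < ε₀ * (1 / ((n : ℝ) + 1)) ∧ ε₀ * (1 / ((n : ℝ) + 1)) ≤ ε₀ := by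
    intro n
    have h1 : (0 : ℝ) < (n : ℝ) + 1 := by positivity
    refine ⟨by positivity, ?_⟩
    have h2 : 1 / ((n : ℝ) + 1) ≤ 1 := by
      rw [div_le_one h1]
      linarith [Nat.cast_nonneg (α := ℝ) n]
    nlinarith
  have hbad : ∀ n : ℕ, ∃ s t c : ℝ, |s| ≤ ε₀ * (1 / ((n : ℝ) + 1)) ∧ -(δ / 4) ≤ t ∧
      t ≤ Tm s + δ / 4 ∧ -(ε₀ * (1 / ((n : ℝ) + 1))) ≤ c ∧ c ≤ P (ε₀ * (1 / ((n : ℝ) + 1))) ∧
      ψ t (σ s) = σ c ∧ ¬ (t = 0 ∧ c = s) ∧ ¬ (t = Tm s ∧ c = P s) := by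
    intro n
    obtain ⟨e0, e1⟩ := hεn n
    set e := ε₀ * (1 / ((n : ℝ) + 1)) with he
    by_contra hc
    push Not at hc
    apply hcon e
    have hsub : Icc (-e) e ⊆ Icc (-ε₀) ε₀ := Icc_subset_Icc (by linarith) e1
    have m1 : (-ε₀) ∈ Icc (-ε₀) ε₀ := ⟨le_rfl, by linarith⟩
    have m2 : (-e) ∈ Icc (-ε₀) ε₀ := ⟨by linarith, by linarith⟩
    have m3 : e ∈ Icc (-ε₀) ε₀ := ⟨by linarith, by linarith⟩
    have m4 : ε₀ ∈ Icc (-ε₀) ε₀ := ⟨by linarith, le_rfl⟩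
    refine ⟨e0, ?_, ?_, hcT.mono hsub, hcP.mono hsub, hmono.mono hsub,
      fun s hs => htpos s (hsub hs), fun s hs => hret s (hsub hs), ?_⟩
    · have h1 : P (-ε₀) ≤ P (-e) := hmono.monotoneOn m1 m2 (by linarith)
      linarith
    · have h1 : P e ≤ P ε₀ := hmono.monotoneOn m3 m4 e1
      linarith
    · intro s hs t c h1 h2 h3 h4 h5
      by_contra h6
      rw [not_or] at h6
      have h7 := hc s t c (abs_le.2 hs) h1 h2 h3 h4 h5 (by
        intro h8 h9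
        exact h6.1 ⟨h8, h9⟩)
      exact h6.2 h7
  choose s t c hs ht1 ht2 hc1 hc2 hψe hn1 hn2 using hbad
  have hlim0 : Tendsto (fun n : ℕ => ε₀ * (1 / ((n : ℝ) + 1))) atTop (𝓝 0) := by
    have := tendsto_one_div_add_atTop_nhds_zero_nat (𝕜 := ℝ)
    simpa using this.const_mul ε₀
  have hs0 : Tendsto s atTop (𝓝 0) :=
    squeeze_zero_norm (fun n => by rw [Real.norm_eq_abs]; exact hs n) hlim0
  have hmem : ∀ n, s n ∈ Icc (-ε₀) ε₀ := fun n => abs_le.1 ((hs n).trans (hεn n).2)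
  obtain ⟨M, hM⟩ := isCompact_Icc.exists_bound_of_continuousOn hcT
  have htm : ∀ n, t n ∈ Icc (-(δ / 4)) (M + δ / 4) := by
    intro n
    refine ⟨ht1 n, (ht2 n).trans ?_⟩
    have h1 := hM (s n) (hmem n)
    rw [Real.norm_eq_abs] at h1
    linarith [le_abs_self (Tm (s n))]
  have hcm : ∀ n, c n ∈ Icc (-ε₀) 1 := by
    intro n
    obtain ⟨e0, e1⟩ := hεn n
    refine ⟨by linarith [hc1 n], (hc2 n).trans ?_⟩
    have h1 : P (ε₀ * (1 / ((n : ℝ) + 1))) ≤ P ε₀ :=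
      hmono.monotoneOn ⟨by linarith, e1⟩ ⟨by linarith, le_rfl⟩ e1
    linarith
  obtain ⟨⟨t₀, c₀⟩, -, κ, hκ, hlim⟩ :=
    (isCompact_Icc.prod isCompact_Icc).tendsto_subseq (x := fun n => (t n, c n))
      (fun n => ⟨htm n, hcm n⟩)
  have hκt : Tendsto κ atTop atTop := hκ.tendsto_atTop
  have lt : Tendsto (fun n => t (κ n)) atTop (𝓝 t₀) := (continuous_fst.tendsto _).comp hlim
  have lc : Tendsto (fun n => c (κ n)) atTop (𝓝 c₀) := (continuous_snd.tendsto _).comp hlim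
  have ls : Tendsto (fun n => s (κ n)) atTop (𝓝 0) := hs0.comp hκt
  have le : Tendsto (fun n => ε₀ * (1 / (((κ n : ℕ) : ℝ) + 1))) atTop (𝓝 0) := hlim0.comp hκt
  have hnh : Icc (-ε₀) ε₀ ∈ 𝓝 (0 : ℝ) := Icc_mem_nhds (by linarith) hε₀
  have aT : ContinuousAt Tm 0 := hcT.continuousAt hnh
  have aP : ContinuousAt P 0 := hcP.continuousAt hnh
  have lT : Tendsto (fun n => Tm (s (κ n))) atTop (𝓝 T) := by
    rw [← hTm0]
    exact aT.tendsto.comp ls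
  have lP : Tendsto (fun n => P (s (κ n))) atTop (𝓝 b) := by
    rw [← hP0]
    exact aP.tendsto.comp ls
  have lPe : Tendsto (fun n => P (ε₀ * (1 / (((κ n : ℕ) : ℝ) + 1)))) atTop (𝓝 b) := by
    rw [← hP0]
    exact aP.tendsto.comp le
  have hc0 : 0 ≤ c₀ := by
    have h1 : Tendsto (fun n => -(ε₀ * (1 / (((κ n : ℕ) : ℝ) + 1)))) atTop (𝓝 (-0)) := le.neg
    rw [neg_zero] at h1
    exact le_of_tendsto_of_tendsto h1 lc (Eventually.of_forall fun n => hc1 (κ n))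
  have hcb : c₀ ≤ b := le_of_tendsto_of_tendsto lc lPe (Eventually.of_forall fun n => hc2 (κ n))
  have ht0 : -(δ / 4) ≤ t₀ := ge_of_tendsto lt (Eventually.of_forall fun n => ht1 (κ n))
  have htT : t₀ ≤ T + δ / 4 :=
    le_of_tendsto_of_tendsto lt (lT.add_const _) (Eventually.of_forall fun n => ht2 (κ n))
  have heq : ψ t₀ (σ 0) = σ c₀ := by
    have h1 : Tendsto (fun n => ψ (t (κ n)) (σ (s (κ n)))) atTop (𝓝 (ψ t₀ (σ 0))) :=
      (hψ.cont.tendsto (t₀, σ 0)).comp (lt.prodMk_nhds ((hB.cont.tendsto 0).comp ls))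
    have h2 : Tendsto (fun n => σ (c (κ n))) atTop (𝓝 (σ c₀)) := (hB.cont.tendsto c₀).comp lc
    refine tendsto_nhds_unique h1 (h2.congr fun n => (hψe (κ n)).symm)
  have ev1 : ∀ᶠ n in atTop, |s (κ n)| < 1 := by
    have h1 := ls.abs
    rw [abs_zero] at h1
    exact h1.eventually (gt_mem_nhds one_pos)
  have hcabs : |c₀| < 1 := by rw [abs_of_nonneg hc0]; linarith
  have ev2 : ∀ᶠ n in atTop, |c (κ n)| < 1 := lc.abs.eventually (gt_mem_nhds hcabs)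
  by_cases hA : t₀ ≤ 0
  · -- near the time zero
    have h1 := hB.inj t₀ 0 0 c₀ (abs_lt.2 ⟨by linarith, by linarith⟩) (by simp) (by simpa using hδ)
      hcabs (by rw [heq, hψ.zero])
    have ht00 : |t₀| < δ := by rw [h1.1]; simpa using hδ
    have ev3 : ∀ᶠ n in atTop, |t (κ n)| < δ := lt.abs.eventually (gt_mem_nhds ht00)
    obtain ⟨n, e1, e2, e3⟩ := (ev1.and (ev2.and ev3)).exists
    have h2 := hB.inj (t (κ n)) (s (κ n)) 0 (c (κ n)) e3 e1 (by simpa using hδ) e2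
      (by rw [hψe, hψ.zero])
    exact hn1 (κ n) ⟨h2.1, h2.2.symm⟩
  push Not at hA
  by_cases hA2 : t₀ < T
  · exact hno t₀ hA hA2 c₀ (by rw [abs_of_nonneg hc0]; linarith) heq
  · push Not at hA2
    have hbabs : |b| < 1 := by rw [abs_of_pos hb]; linarith
    have h0 : ψ (t₀ - T) (σ b) = ψ t₀ (σ 0) := by
      rw [← hTb, ← hψ.add]
      congr 1
      ring
    have h1 := hB.inj (t₀ - T) b 0 c₀ (abs_lt.2 ⟨by linarith, by linarith⟩) hbabs
      (by simpa using hδ) hcabs (by rw [h0, heq, hψ.zero])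
    have ld : Tendsto (fun n => |t (κ n) - Tm (s (κ n))|) atTop (𝓝 |t₀ - T|) := (lt.sub lT).abs
    rw [h1.1, abs_zero] at ld
    have ev3 : ∀ᶠ n in atTop, |t (κ n) - Tm (s (κ n))| < δ := ld.eventually (gt_mem_nhds hδ)
    have ev4 : ∀ᶠ n in atTop, |P (s (κ n))| < 1 := lP.abs.eventually (gt_mem_nhds hbabs)
    obtain ⟨n, e1, e2, e3, e4⟩ := (ev1.and (ev2.and (ev3.and ev4))).exists
    have h3 : ψ (t (κ n) - Tm (s (κ n))) (σ (P (s (κ n)))) = ψ (t (κ n)) (σ (s (κ n))) := by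
      rw [← hret _ (hmem (κ n)), ← hψ.add]
      congr 1
      ring
    have h2 := hB.inj (t (κ n) - Tm (s (κ n))) (P (s (κ n))) 0 (c (κ n)) e3 e4
      (by simpa using hδ) e2 (by rw [h3, hψe, hψ.zero])
    exact hn2 (κ n) ⟨by linarith [h2.1], h2.2.symm⟩

end Pool.Agent.H59.CFL
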