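import Pool.Agent.H59.CFL.Targets

/-!
# C¹ flows on closed hyperbolic surfaces: the first return (row FRT)

Used for MP_b11560_gt.
-/

set_option autoImplicit false

open Filter Topology Set
open scoped UpperHalfPlane MatrixGroups

namespace Pool.Agent.H59.CFL

open Pool.Agent.H61.SF (IsFlow)

theorem frt : T_FRT := by
  intro S _ _ ψ σ δ hψ hbox hnp hrec
  have hδ := hbox.pos
  set J : Set S := σ '' Icc (-(1 / 2)) (1 / 2) with hJ
  have hJc : IsClosed J := (isCompact_Icc.image hbox.cont).isClosed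
  set Z : Set ℝ := {t | δ / 2 ≤ t ∧ ψ t (σ 0) ∈ J} with hZ
  have hZc : IsClosed Z := (isClosed_le continuous_const continuous_id).inter
    (hJc.preimage (hψ.cont2 (σ 0)))
  have hZb : BddBelow Z := ⟨δ / 2, fun t ht => ht.1⟩
  have hZn : Z.Nonempty := by
    set U : Set (ℝ × ℝ) := {p | |p.1| < δ / 2 ∧ |p.2| < 1 / 2} with hU
    have hUo : IsOpen U := (isOpen_lt (continuous_abs.comp continuous_fst) continuous_const).inter
      (isOpen_lt (continuous_abs.comp continuous_snd) continuous_const)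
    have hW := hbox.isOpen U hUo fun p hp => ⟨by linarith [hp.1], by linarith [hp.2]⟩
    have h0 : σ 0 ∈ (fun p : ℝ × ℝ => ψ p.1 (σ p.2)) '' U :=
      ⟨(0, 0), ⟨by simpa using hδ, by simp⟩, hψ.zero _⟩
    obtain ⟨t, ht, ⟨θ, c⟩, ⟨h1, h2⟩, h3⟩ := hrec _ (hW.mem_nhds h0) δ
    simp only at h1 h2 h3
    refine ⟨t - θ, ?_, c, ?_, ?_⟩
    · have := (abs_lt.1 h1).2
      linarith
    · rw [abs_lt] at h2
      exact ⟨h2.1.le, h2.2.le⟩
    · rw [sub_eq_neg_add, hψ.add, ← h3, hψ.neg]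
  set T : ℝ := sInf Z with hT
  have hTZ : T ∈ Z := hZc.csInf_mem hZn hZb
  obtain ⟨hT1, b, hb, hb2⟩ := hTZ
  have hTpos : 0 < T := by linarith
  refine ⟨T, b, hTpos, abs_le.2 hb, ?_, hb2.symm, fun t ht0 htT c hc h => ?_⟩
  · rintro rfl
    exact hnp T hTpos.ne' hb2.symm
  · by_cases hlt : t < δ / 2
    · have h1 : ψ t (σ 0) = ψ 0 (σ c) := by rw [h, hψ.zero]
      have := (hbox.inj t 0 0 c (by rw [abs_of_pos ht0]; linarith) (by simp) (by simpa using hδ)
        (by linarith) h1).1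
      linarith
    · have h1 : t ∈ Z := ⟨not_lt.1 hlt, c, abs_le.1 hc, h.symm⟩
      exact absurd (csInf_le hZb h1) (not_le.2 htT)

end Pool.Agent.H59.CFL
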