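import Pool.Agent.H59.CFL.Targets

/-!
# C¹ flows on closed hyperbolic surfaces: row HYP of the board `cfl_modules`

The powers of a hyperbolic element move each point at a linear rate.
-/

set_option autoImplicit false

open MeasureTheory Filter Topology Set
open scoped UpperHalfPlane MatrixGroups

namespace Pool.Agent.H59.CFL.HYP

open Pool.Agent.H59.CFL

/-- the image of `i` -/
theorem coe_smul_I (h : SL(2, ℝ)) : ((h • UpperHalfPlane.I : ℍ) : ℂ) =
    ⟨(h 0 0 * h 1 0 + h 0 1 * h 1 1) / (h 1 0 ^ 2 + h 1 1 ^ 2),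
      1 / (h 1 0 ^ 2 + h 1 1 ^ 2)⟩ := by
  have hdet : h 0 0 * h 1 1 - h 0 1 * h 1 0 = 1 := by
    have := h.det_coe
    rw [Matrix.det_fin_two] at this
    exact this
  have hq : 0 < h 1 0 ^ 2 + h 1 1 ^ 2 := by
    rcases eq_or_ne (h 1 0) 0 with h1 | h1
    · have h2 : h 1 1 ≠ 0 := by
        intro h3
        rw [h1, h3] at hdet
        norm_num at hdet
      positivity
    · positivity
  rw [UpperHalfPlane.coe_specialLinearGroup_apply]
  have hne : ((h 1 0 : ℝ) : ℂ) * UpperHalfPlane.I + ((h 1 1 : ℝ) : ℂ) ≠ 0 := by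
    intro hcon
    have hre := congrArg Complex.re hcon
    have him := congrArg Complex.im hcon
    simp at hre him
    rw [hre, him] at hq
    norm_num at hq
  simp only [Algebra.algebraMap_self, RingHom.id_apply]
  rw [div_eq_iff hne]
  apply Complex.ext
  · simp
    field_simp
    linear_combination (-(h 1 0)) * hdet
  · simp
    field_simp
    linear_combination (h 1 1) * hdet

/-- the displacement of `i` -/
theorem cosh_I (h : SL(2, ℝ)) : Real.cosh (dist (h • UpperHalfPlane.I) UpperHalfPlane.I) =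
    (h 0 0 ^ 2 + h 0 1 ^ 2 + h 1 0 ^ 2 + h 1 1 ^ 2) / 2 := by
  have hdet : h 0 0 * h 1 1 - h 0 1 * h 1 0 = 1 := by
    have := h.det_coe
    rw [Matrix.det_fin_two] at this
    exact this
  have hq : 0 < h 1 0 ^ 2 + h 1 1 ^ 2 := by
    rcases eq_or_ne (h 1 0) 0 with h1 | h1
    · have h2 : h 1 1 ≠ 0 := by
        intro h3
        rw [h1, h3] at hdet
        norm_num at hdet
      positivity
    · positivity
  have hre : (h • UpperHalfPlane.I : ℍ).re =
      (h 0 0 * h 1 0 + h 0 1 * h 1 1) / (h 1 0 ^ 2 + h 1 1 ^ 2) := by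
    rw [← UpperHalfPlane.coe_re, coe_smul_I]
  have him : (h • UpperHalfPlane.I : ℍ).im = 1 / (h 1 0 ^ 2 + h 1 1 ^ 2) := by
    rw [← UpperHalfPlane.coe_im, coe_smul_I]
  have hI1 : UpperHalfPlane.I.re = 0 := by simp
  have hI2 : UpperHalfPlane.I.im = 1 := by simp
  rw [UpperHalfPlane.cosh_dist', hre, him, hI1, hI2]
  have h3 : (h 0 0 * h 1 0 + h 0 1 * h 1 1) ^ 2 + 1 =
      (h 0 0 ^ 2 + h 0 1 ^ 2) * (h 1 0 ^ 2 + h 1 1 ^ 2) := by
    linear_combination (-(h 0 0 * h 1 1 - h 0 1 * h 1 0 + 1)) * hdet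
  field_simp
  linarith

/-- recursion for the traces of the powers -/
theorem trace_rec (g : SL(2, ℝ)) (k : ℕ) :
    Matrix.trace ((g : Matrix (Fin 2) (Fin 2) ℝ) ^ (k + 2)) =
      Matrix.trace (g : Matrix (Fin 2) (Fin 2) ℝ) *
        Matrix.trace ((g : Matrix (Fin 2) (Fin 2) ℝ) ^ (k + 1)) -
      Matrix.trace ((g : Matrix (Fin 2) (Fin 2) ℝ) ^ k) := by
  have hdet : g 0 0 * g 1 1 - g 0 1 * g 1 0 = 1 := by
    have := g.det_coe
    rw [Matrix.det_fin_two] at this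
    exact this
  have h2 : (g : Matrix (Fin 2) (Fin 2) ℝ) * g =
      Matrix.trace (g : Matrix (Fin 2) (Fin 2) ℝ) • (g : Matrix (Fin 2) (Fin 2) ℝ) - 1 := by
    ext i j
    fin_cases i <;> fin_cases j <;>
      simp [Matrix.mul_apply, Fin.sum_univ_two, Matrix.trace_fin_two] <;> linarith
  have h3 : (g : Matrix (Fin 2) (Fin 2) ℝ) ^ (k + 2) =
      Matrix.trace (g : Matrix (Fin 2) (Fin 2) ℝ) • (g : Matrix (Fin 2) (Fin 2) ℝ) ^ (k + 1) -
        (g : Matrix (Fin 2) (Fin 2) ℝ) ^ k := by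
    rw [pow_add, pow_two, h2, mul_sub, mul_smul_comm, mul_one, ← pow_succ]
  rw [h3, Matrix.trace_sub, Matrix.trace_smul, smul_eq_mul]

/-- growth of the traces -/
theorem trace_grow (g : SL(2, ℝ)) (hg : 2 < |Matrix.trace (g : Matrix (Fin 2) (Fin 2) ℝ)|) :
    ∀ k : ℕ, 2 * (|Matrix.trace (g : Matrix (Fin 2) (Fin 2) ℝ)| / 2) ^ k ≤
        |Matrix.trace ((g : Matrix (Fin 2) (Fin 2) ℝ) ^ k)| ∧
      |Matrix.trace (g : Matrix (Fin 2) (Fin 2) ℝ)| / 2 *
        |Matrix.trace ((g : Matrix (Fin 2) (Fin 2) ℝ) ^ k)| ≤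
        |Matrix.trace ((g : Matrix (Fin 2) (Fin 2) ℝ) ^ (k + 1))| := by
  set τ := |Matrix.trace (g : Matrix (Fin 2) (Fin 2) ℝ)| with hτ
  set r := τ / 2 with hr
  have hr1 : 1 < r := by rw [hr]; linarith
  intro k
  induction k with
  | zero =>
    have h0 : |Matrix.trace ((g : Matrix (Fin 2) (Fin 2) ℝ) ^ 0)| = 2 := by
      rw [pow_zero, Matrix.trace_one]
      simp
    refine ⟨?_, ?_⟩
    · rw [h0]; simp
    · rw [h0, zero_add, pow_one, ← hτ, hr]
      linarith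
  | succ k ih =>
    obtain ⟨h1, h2⟩ := ih
    refine ⟨?_, ?_⟩
    · calc 2 * r ^ (k + 1) = r * (2 * r ^ k) := by ring
        _ ≤ r * |Matrix.trace ((g : Matrix (Fin 2) (Fin 2) ℝ) ^ k)| :=
          mul_le_mul_of_nonneg_left h1 (by linarith)
        _ ≤ _ := h2
    · have h3 := trace_rec g k
      have h4 : τ * |Matrix.trace ((g : Matrix (Fin 2) (Fin 2) ℝ) ^ (k + 1))| -
          |Matrix.trace ((g : Matrix (Fin 2) (Fin 2) ℝ) ^ k)| ≤
          |Matrix.trace ((g : Matrix (Fin 2) (Fin 2) ℝ) ^ (k + 2))| := by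
        rw [h3, hτ, ← abs_mul]
        exact abs_sub_abs_le_abs_sub _ _
      have h5 : (k + 1 + 1) = k + 2 := rfl
      rw [h5]
      refine le_trans ?_ h4
      have h6 : τ = 2 * r := by rw [hr]; ring
      rw [h6]
      have h7 : 0 ≤ |Matrix.trace ((g : Matrix (Fin 2) (Fin 2) ℝ) ^ k)| := abs_nonneg _
      have h8 : |Matrix.trace ((g : Matrix (Fin 2) (Fin 2) ℝ) ^ k)| ≤
          r * |Matrix.trace ((g : Matrix (Fin 2) (Fin 2) ℝ) ^ k)| :=
        le_mul_of_one_le_left h7 hr1.le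
      have h9 : |Matrix.trace ((g : Matrix (Fin 2) (Fin 2) ℝ) ^ (k + 1))| ≤
          r * |Matrix.trace ((g : Matrix (Fin 2) (Fin 2) ℝ) ^ (k + 1))| :=
        le_mul_of_one_le_left (abs_nonneg _) hr1.le
      linarith

end Pool.Agent.H59.CFL.HYP

namespace Pool.Agent.H59.CFL

theorem hyp : T_HYP := by
  intro g hg z
  set r := |Matrix.trace (g : Matrix (Fin 2) (Fin 2) ℝ)| / 2 with hr
  have hr1 : 1 < r := by rw [hr]; linarith
  refine ⟨2 * Real.log r, by have := Real.log_pos hr1; linarith,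
    2 * dist z UpperHalfPlane.I, ?_⟩
  intro k
  have h1 := (HYP.trace_grow g hg k).1
  have h2 := HYP.cosh_I (g ^ k)
  have h3 : Matrix.trace ((g : Matrix (Fin 2) (Fin 2) ℝ) ^ k) = (g ^ k) 0 0 + (g ^ k) 1 1 := by
    rw [← Matrix.SpecialLinearGroup.coe_pow, Matrix.trace_fin_two]
  have h4 : (r ^ k) ^ 2 ≤ Real.cosh (dist (g ^ k • UpperHalfPlane.I) UpperHalfPlane.I) := by
    rw [h2]
    have h5 : (2 * r ^ k) ^ 2 ≤ ((g ^ k) 0 0 + (g ^ k) 1 1) ^ 2 := by
      rw [← sq_abs ((g ^ k) 0 0 + (g ^ k) 1 1), ← h3]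
      exact pow_le_pow_left₀ (by positivity) h1 2
    nlinarith [sq_nonneg ((g ^ k) 0 0 - (g ^ k) 1 1), sq_nonneg ((g ^ k) 0 1),
      sq_nonneg ((g ^ k) 1 0)]
  have h5 : Real.cosh (dist (g ^ k • UpperHalfPlane.I) UpperHalfPlane.I) ≤
      Real.exp (dist (g ^ k • UpperHalfPlane.I) UpperHalfPlane.I) := by
    rw [Real.cosh_eq]
    have h6 : Real.exp (-dist (g ^ k • UpperHalfPlane.I) UpperHalfPlane.I) ≤
        Real.exp (dist (g ^ k • UpperHalfPlane.I) UpperHalfPlane.I) := by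
      apply Real.exp_le_exp.2
      have : 0 ≤ dist (g ^ k • UpperHalfPlane.I) UpperHalfPlane.I := dist_nonneg
      linarith
    linarith
  have h6 : 2 * Real.log r * k ≤ dist (g ^ k • UpperHalfPlane.I) UpperHalfPlane.I := by
    have h7 : Real.log ((r ^ k) ^ 2) ≤ dist (g ^ k • UpperHalfPlane.I) UpperHalfPlane.I :=
      (Real.log_le_iff_le_exp (by positivity)).2 (h4.trans h5)
    rw [Real.log_pow, Real.log_pow] at h7
    push_cast at h7
    linarith
  have h7 : dist (g ^ k • UpperHalfPlane.I) UpperHalfPlane.I ≤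
      dist (g ^ k • z) z + 2 * dist z UpperHalfPlane.I := by
    have h8 := dist_triangle (g ^ k • UpperHalfPlane.I) (g ^ k • z) UpperHalfPlane.I
    have h9 := dist_triangle (g ^ k • z) z UpperHalfPlane.I
    have h10 : dist (g ^ k • UpperHalfPlane.I) (g ^ k • z) = dist UpperHalfPlane.I z :=
      dist_smul _ _ _
    rw [h10, dist_comm UpperHalfPlane.I z] at h8
    linarith
  linarith

end Pool.Agent.H59.CFL

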