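import Pool.Agent.H59.CFL.Targets

/-!
# C¹ flows on closed hyperbolic surfaces: the injectivity radius (row INJ)

Used for MP_b11560_gt.
-/

set_option autoImplicit false

open Filter Topology Set
open scoped UpperHalfPlane MatrixGroups

namespace Pool.Agent.H59.CFL

theorem inj : T_INJ := by
  intro Γ hΓ
  have hdisc := hΓ.disc
  obtain ⟨K, hK, hKcov⟩ := hΓ.cocompact
  set K1 : Set ℍ := Metric.cthickening 1 K with hK1
  have hK1c : IsCompact K1 := hK.cthickening
  have hfin : {g : Γ | ((g • ·) '' K1 ∩ K1).Nonempty}.Finite := by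
    have := hdisc.finite_disjoint_inter_image hK1c hK1c
    exact this
  have hiso : ∀ (g : Γ) (x y : ℍ), dist (g • x) (g • y) = dist x y := fun g x y =>
    dist_smul (g : SL(2, ℝ)) x y
  have hcont : ∀ g : Γ, Continuous (fun w : ℍ => dist (g • w) w) := fun g =>
    (continuous_const_smul g).dist continuous_id
  have hKne : K.Nonempty := by
    obtain ⟨g, hg⟩ := hKcov UpperHalfPlane.I
    exact ⟨_, hg⟩
  -- a constant for each element
  have hone : ∀ g : Γ, ∃ c > 0, (∃ z : ℍ, g • z ≠ z) → ∀ w ∈ K, c ≤ dist (g • w) w := by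
    intro g
    by_cases hg : ∃ z : ℍ, g • z ≠ z
    · obtain ⟨w₀, hw₀, hmin⟩ := hK.exists_isMinOn hKne (hcont g).continuousOn
      refine ⟨dist (g • w₀) w₀, dist_pos.2 ?_, fun _ w hw => hmin hw⟩
      intro h
      obtain ⟨z, hz⟩ := hg
      exact hz (hΓ.free g w₀ h z)
    · exact ⟨1, one_pos, fun h => absurd h hg⟩
  choose c hc hc2 using hone
  obtain ⟨m, hm, hm2⟩ : ∃ m > 0, ∀ g ∈ {g : Γ | ((g • ·) '' K1 ∩ K1).Nonempty}, m ≤ c g := by
    have key : ∀ F : Finset Γ, ∃ m > 0, ∀ g ∈ F, m ≤ c g := by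
      classical
      intro F
      induction F using Finset.induction_on with
      | empty => exact ⟨1, one_pos, fun g hg => absurd hg (Finset.notMem_empty g)⟩
      | insert a F _ ih =>
        obtain ⟨m, hm, hm2⟩ := ih
        refine ⟨min m (c a), lt_min hm (hc a), fun g hg => ?_⟩
        rcases Finset.mem_insert.1 hg with rfl | hg
        · exact min_le_right _ _
        · exact (min_le_left _ _).trans (hm2 g hg)
    obtain ⟨m, hm, hm2⟩ := key hfin.toFinset
    exact ⟨m, hm, fun g hg => hm2 g (hfin.mem_toFinset.2 hg)⟩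
  have hKK : ∀ g : Γ, (∃ z : ℍ, g • z ≠ z) → ∀ w ∈ K, min m 1 ≤ dist (g • w) w := by
    intro g hg w hw
    by_cases h : g ∈ {g : Γ | ((g • ·) '' K1 ∩ K1).Nonempty}
    · exact (min_le_left _ _).trans ((hm2 g h).trans (hc2 g hg w hw))
    · refine (min_le_right _ _).trans ?_
      by_contra hlt
      push Not at hlt
      refine h ⟨g • w, ⟨w, Metric.self_subset_cthickening K hw, rfl⟩, ?_⟩
      exact Metric.mem_cthickening_of_dist_le (g • w) w 1 K hw hlt.le
  refine ⟨min m 1, lt_min hm one_pos, fun g hg w => ?_⟩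
  obtain ⟨h, hh⟩ := hKcov w
  have h1 : dist (g • w) w = dist ((h * g * h⁻¹) • (h • w)) (h • w) := by
    rw [smul_smul, inv_mul_cancel_right, mul_smul, hiso]
  rw [h1]
  refine hKK _ ?_ _ hh
  obtain ⟨z, hz⟩ := hg
  refine ⟨h • z, fun h2 => hz ?_⟩
  rw [smul_smul, inv_mul_cancel_right, mul_smul] at h2
  exact smul_left_cancel h h2

end Pool.Agent.H59.CFL
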