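import Pool.Agent.H59.CFL.Targets

/-!
Row NUL of the board cfl_modules (MP_b11560_gt), by helper19.
-/

set_option autoImplicit false

open MeasureTheory Filter Topology Set

namespace Pool.Agent.H59.CFL

/-- NUL -/
theorem nul : T_NUL := by
  intro S _ _ _ _ D hD hD0 μ hμ hT A hA
  have hDc : ∀ t : ℝ, Continuous (D t) := fun t =>
    hD.comp (Continuous.prodMk continuous_const continuous_id)
  have hint : ∀ t : ℝ, Integrable (D t) μ := by
    intro t
    obtain ⟨K, hK⟩ := isCompact_univ.exists_bound_of_continuousOn (hDc t).continuousOn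
    exact Integrable.of_bound (hDc t).aestronglyMeasurable K
      (Eventually.of_forall (fun x => hK x (mem_univ x)))
  have hsub : A ⊆ ⋃ m : ℕ, {x | ∀ n : ℕ, (n : ℝ) / ((m : ℝ) + 1) - ((m : ℝ) + 1) ≤ D n x} := by
    intro x hx
    obtain ⟨c, hc, C, hC⟩ := hA x hx
    obtain ⟨m, hm⟩ := exists_nat_ge (max (1 / c) C)
    rw [mem_iUnion]
    refine ⟨m, fun n => ?_⟩
    have h1 : 1 / c ≤ (m : ℝ) := le_trans (le_max_left _ _) hm
    have h2 : C ≤ (m : ℝ) := le_trans (le_max_right _ _) hm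
    refine le_trans ?_ (hC n)
    have h3 : (n : ℝ) / ((m : ℝ) + 1) ≤ c * n := by
      rw [div_le_iff₀ (by positivity)]
      have h4 : 1 ≤ (m : ℝ) * c := by
        rwa [div_le_iff₀ hc] at h1
      have h5 : (0 : ℝ) ≤ n := by positivity
      nlinarith [mul_nonneg h5 hc.le, mul_le_mul_of_nonneg_left h4 h5]
    linarith
  refine measure_mono_null hsub (measure_iUnion_null (fun m => ?_))
  set B : Set S := {x | ∀ n : ℕ, (n : ℝ) / ((m : ℝ) + 1) - ((m : ℝ) + 1) ≤ D n x} with hB
  have hreal : μ.real B = 0 := by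
    have h1 : ∀ n : ℕ, ((n : ℝ) / ((m : ℝ) + 1) - ((m : ℝ) + 1)) * μ.real B ≤ ∫ x, D n x ∂μ := by
      intro n
      set e : ℝ := (n : ℝ) / ((m : ℝ) + 1) - ((m : ℝ) + 1) with he
      rcases le_or_gt e 0 with h0 | h0
      · exact le_trans (mul_nonpos_of_nonpos_of_nonneg h0 measureReal_nonneg)
          (integral_nonneg (hD0 n))
      · refine le_trans (mul_le_mul_of_nonneg_left ?_ h0.le)
          (mul_meas_ge_le_integral_of_nonneg (Eventually.of_forall (hD0 n)) (hint n) e)
        refine measureReal_mono ?_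
        intro x hx
        exact hx n
    have h2 : Tendsto (fun n : ℕ => (∫ x, D n x ∂μ) / (n : ℝ)) atTop (𝓝 0) :=
      hT.comp tendsto_natCast_atTop_atTop
    have h3 : Tendsto (fun n : ℕ => (1 / ((m : ℝ) + 1) - ((m : ℝ) + 1) / (n : ℝ)) * μ.real B) atTop
        (𝓝 ((1 / ((m : ℝ) + 1) - 0) * μ.real B)) :=
      (tendsto_const_nhds.sub (tendsto_const_div_atTop_nhds_zero_nat _)).mul_const _
    have h4 : (1 / ((m : ℝ) + 1) - 0) * μ.real B ≤ 0 := by
      refine le_of_tendsto_of_tendsto h3 h2 ?_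
      filter_upwards [eventually_gt_atTop 0] with n hn
      have hn' : (0 : ℝ) < n := by exact_mod_cast hn
      rw [le_div_iff₀ hn']
      have h5 := h1 n
      have h6 : (1 / ((m : ℝ) + 1) - ((m : ℝ) + 1) / (n : ℝ)) * μ.real B * n =
          ((n : ℝ) / ((m : ℝ) + 1) - ((m : ℝ) + 1)) * μ.real B := by
        field_simp
      rw [h6]
      exact h5
    rw [sub_zero] at h4
    have h7 : 0 ≤ μ.real B := measureReal_nonneg
    have h8 : (0 : ℝ) < 1 / ((m : ℝ) + 1) := by positivity
    by_contra hne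
    have h9 : 0 < μ.real B := lt_of_le_of_ne h7 (Ne.symm hne)
    exact absurd h4 (not_le.2 (mul_pos h8 h9))
  rwa [measureReal_eq_zero_iff] at hreal

end Pool.Agent.H59.CFL
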