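import Pool.Agent.H59.CFL.BXH

/-!
# C¹ flows on closed hyperbolic surfaces: the return maps preserve the orientation (row ORI)

Used for MP_b11560_gt.
-/

set_option autoImplicit false

open Filter Topology Set
open scoped UpperHalfPlane MatrixGroups

namespace Pool.Agent.H59.CFL.ORI

open Pool.Agent.H61.SF (IsFlow)

theorem mob (h : SL(2, ℝ)) (z : ℍ) : ∃ m : ℂ, m ≠ 0 ∧
    HasDerivAt (fun w : ℂ => ((h • UpperHalfPlane.ofComplex w : ℍ) : ℂ)) m (z : ℂ) := by
  have hd : 0 < ((h : GL (Fin 2) ℝ).val).det := by simp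
  have h1 := (UpperHalfPlane.hasStrictDerivAt_smul hd z).hasDerivAt
  refine ⟨_, ?_, h1⟩
  refine div_ne_zero ?_ (pow_ne_zero 2 (UpperHalfPlane.denom_ne_zero _ z))
  exact_mod_cast hd.ne'

theorem crs_mul (m x y : ℂ) : crs (m * x) (m * y) = Complex.normSq m * crs x y := by
  simp only [crs, Complex.mul_re, Complex.mul_im, Complex.normSq_apply]
  ring

/-- a positive derivative -/
theorem ev_mono {f : ℝ → ℝ} {β a : ℝ} (hf : HasDerivAt f β a) (hβ : 0 < β) :
    ∃ r > 0, ∀ s, |s - a| < r → (a < s → f a < f s) ∧ (s < a → f s < f a) := by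
  have h1 := (hasDerivAt_iff_tendsto_slope.1 hf).eventually_const_lt hβ
  rw [eventually_nhdsWithin_iff, Metric.eventually_nhds_iff] at h1
  obtain ⟨r, hr, h⟩ := h1
  refine ⟨r, hr, fun s hs => ?_⟩
  have h2 : s ≠ a → 0 < slope f a s := fun hne => h (by rwa [Real.dist_eq]) hne
  constructor
  · intro hlt
    have h3 := h2 hlt.ne'
    rw [slope_def_field, div_pos_iff] at h3
    rcases h3 with h3 | h3
    · linarith [h3.1]
    · linarith [h3.2]
  · intro hlt
    have h3 := h2 hlt.ne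
    rw [slope_def_field, div_pos_iff] at h3
    rcases h3 with h3 | h3
    · linarith [h3.2]
    · linarith [h3.1]

end Pool.Agent.H59.CFL.ORI

namespace Pool.Agent.H59.CFL

open Pool.Agent.H61.SF (IsFlow)
open BXH ORI

theorem ori (hFLD : T_FLD) (hORP : T_ORP) : T_ORI := by
  intro φ hφ hC z₀ v δ ρ hbox g hg T a b ha hb heq
  obtain ⟨-, hvd, hsd, -, -, -, -, -⟩ := hFLD φ hφ hC
  obtain ⟨N, hN, hN2⟩ := hbox.inv
  obtain ⟨N', hN', hNX, hNv⟩ := hN2 b hb
  have hgi : ∀ (t : ℝ) (z : ℍ), φ t (g⁻¹ • z) = g⁻¹ • φ t z := by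
    intro t z
    have h1 := hg t (g⁻¹ • z)
    rw [smul_inv_smul] at h1
    rw [h1, inv_smul_smul]
  set pa : ℍ := pt z₀ v a with hpa
  set pb : ℍ := pt z₀ v b with hpb
  set y : ℍ := φ T pa with hy
  have hyb : g⁻¹ • y = pb := by
    rw [heq, inv_smul_smul]
  obtain ⟨m, hm, hmd⟩ := mob g⁻¹ y
  -- the velocity at `pb`
  have hvb : vel φ pb = m * vel φ y := by
    have h1 : HasDerivAt (fun s : ℝ => (φ s y : ℂ)) (vel φ y) 0 := by
      have := hvd 0 y
      rwa [hφ.zero] at this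
    have h2 : HasDerivAt (fun w : ℂ => ((g⁻¹ • UpperHalfPlane.ofComplex w : ℍ) : ℂ)) m
        ((fun s : ℝ => (φ s y : ℂ)) 0) := by
      simp only [hφ.zero]
      exact hmd
    have h3 := HasDerivAt.comp (h := fun s : ℝ => (φ s y : ℂ)) (0 : ℝ) h2 h1
    have h4 : ((fun w : ℂ => ((g⁻¹ • UpperHalfPlane.ofComplex w : ℍ) : ℂ)) ∘
        fun s : ℝ => (φ s y : ℂ)) = fun s : ℝ => (φ s pb : ℂ) := by
      funext s
      simp only [Function.comp, UpperHalfPlane.ofComplex_apply]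
      rw [← hgi, hyb]
    rw [h4] at h3
    have h5 := hvd 0 pb
    rw [hφ.zero] at h5
    exact h5.unique h3
  -- the curve `q`
  let q : ℝ → ℂ := fun s => ((g⁻¹ • φ T (pt z₀ v s) : ℍ) : ℂ)
  have him : 0 < ((z₀ : ℂ) + (a : ℂ) * v).im := hbox.im a ha.le
  have hq : HasDerivAt q (m * spd φ T pa v) a := by
    have h1 : HasDerivAt (fun s : ℝ => (z₀ : ℂ) + (s : ℂ) * v) v a := by
      have h6 : HasDerivAt (fun s : ℝ => (s : ℂ)) 1 a := Complex.ofRealCLM.hasDerivAt
      have h7 := (h6.mul_const v).const_add (z₀ : ℂ)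
      rwa [one_mul] at h7
    have h2 : HasFDerivAt (fun w : ℂ => (φ T (UpperHalfPlane.ofComplex w) : ℂ)) (spd φ T pa)
        ((fun s : ℝ => (z₀ : ℂ) + (s : ℂ) * v) a) := by
      have := hsd T pa
      rw [hpa, coe_pt z₀ v him] at this
      exact this
    have h3 := HasFDerivAt.comp_hasDerivAt (f := fun s : ℝ => (z₀ : ℂ) + (s : ℂ) * v)
      (l := fun w : ℂ => (φ T (UpperHalfPlane.ofComplex w) : ℂ)) a h2 h1
    have h4 : HasDerivAt (fun w : ℂ => ((g⁻¹ • UpperHalfPlane.ofComplex w : ℍ) : ℂ)) m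
        (((fun w : ℂ => (φ T (UpperHalfPlane.ofComplex w) : ℂ)) ∘
          fun s : ℝ => (z₀ : ℂ) + (s : ℂ) * v) a) := hmd
    have h5 := HasDerivAt.comp a h4 h3
    have h6 : ((fun w : ℂ => ((g⁻¹ • UpperHalfPlane.ofComplex w : ℍ) : ℂ)) ∘
        ((fun w : ℂ => (φ T (UpperHalfPlane.ofComplex w) : ℂ)) ∘
          fun s : ℝ => (z₀ : ℂ) + (s : ℂ) * v)) = q := by
      funext s
      simp only [Function.comp, UpperHalfPlane.ofComplex_apply]
      rfl
    rwa [h6] at h5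
  have hqa : q a = (pb : ℂ) := by
    change ((g⁻¹ • y : ℍ) : ℂ) = _
    rw [hyb]
  -- positivity
  have hcb : 0 < crs (vel φ pb) v := hbox.crs_pos b hb.le
  have hpos : 0 < crs (vel φ pb) (m * spd φ T pa v) := by
    rw [hvb, crs_mul]
    exact mul_pos (Complex.normSq_pos.2 hm) (hORP φ hφ hC pa v (hbox.crs_pos a ha.le) T)
  have hβ : (N' (m * spd φ T pa v)).2 = (crs (vel φ pb) v)⁻¹ * crs (vel φ pb)
      (m * spd φ T pa v) := by
    have h1 := lin_right hcb.ne' (m * spd φ T pa v)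
    conv_lhs => rw [← h1]
    rw [map_add, map_smul, map_smul, hNX, hNv, linv_apply]
    simp
  have hβpos : 0 < (N' (m * spd φ T pa v)).2 := by
    rw [hβ]
    exact mul_pos (inv_pos.2 hcb) hpos
  have hf : HasDerivAt (fun s => (N (q s)).2) (N' (m * spd φ T pa v)).2 a := by
    have h1 : HasFDerivAt N N' (q a) := by rwa [hqa]
    have h2 := HasFDerivAt.comp_hasDerivAt (f := q) (l := N) a h1 hq
    exact h2.snd
  have hfa : (N (q a)).2 = b := by
    rw [hqa]
    have := hN 0 b (by simpa using hbox.pos) hb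
    rw [hφ.zero] at this
    rw [this]
  obtain ⟨r, hr, h⟩ := ev_mono hf hβpos
  refine ⟨r, hr, fun s θ s' hs _ hθ hs' hst => ?_⟩
  have hfs : (N (q s)).2 = s' := by
    have h1 : q s = (φ θ (pt z₀ v s') : ℂ) := by
      change ((g⁻¹ • φ T (pt z₀ v s) : ℍ) : ℂ) = _
      rw [hst, inv_smul_smul]
    rw [h1, hN θ s' hθ hs']
  have := h s hs
  simp only [hfa, hfs] at this
  exact this

end Pool.Agent.H59.CFL
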