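import Pool.Agent.H59.CFL.Targets

/-!
Row PER of the board cfl_modules (`MP_b11560_gt`), by helper13: closed trajectories of the surface
that do not lift have a linear displacement.
-/

set_option autoImplicit false

open Filter Topology Set
open scoped UpperHalfPlane MatrixGroups

namespace Pool.Agent.H59.CFL

open Pool.Agent.H61.SF

theorem PER.trace_big (h1 : T_INJ) (h2 : T_TRA) (Γ : Subgroup SL(2, ℝ)) (hΓ : IsDeckGroup Γ)
    (g : Γ) (z : ℍ) (hg : g • z ≠ z) :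
    2 < |Matrix.trace ((g : SL(2, ℝ)) : Matrix (Fin 2) (Fin 2) ℝ)| := by
  by_contra h
  obtain ⟨c, hc, hcc⟩ := h1 Γ hΓ
  obtain ⟨w, hw⟩ := h2 g (not_lt.1 h) c hc
  exact absurd (hcc g ⟨z, hg⟩ w) (not_le.2 hw)

theorem PER.pow_orbit (Γ : Subgroup SL(2, ℝ)) (φ : ℝ → ℍ → ℍ) (hφ : IsFlow φ)
    (hΓ : ∀ (g : Γ) (t : ℝ) (z : ℍ), φ t (g • z) = g • φ t z) (z : ℍ) (T : ℝ) (g : Γ)
    (hg : φ T z = g • z) (k : ℕ) : φ (k * T) z = (g ^ k) • z := by
  induction k with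
  | zero => rw [Nat.cast_zero, zero_mul, hφ.zero, pow_zero, one_smul]
  | succ k ih =>
    have e : ((k + 1 : ℕ) : ℝ) * T = k * T + T := by
      push_cast
      ring
    rw [e, hφ.add, hg, hΓ, ih, pow_succ', mul_smul]

theorem per (h1 : T_INJ) (h2 : T_TRA) (h3 : T_HYP) : T_PER := by
  intro Γ hΓ φ hφ hφΓ z T hT g hg hgz
  obtain ⟨c₀, hc₀, C₀, hC₀⟩ := h3 g (PER.trace_big h1 h2 Γ hΓ g z hgz) z
  have hcont : Continuous fun s : ℝ => dist (φ s z) z :=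
    (hφ.cont.comp (continuous_id.prodMk continuous_const)).dist continuous_const
  obtain ⟨B, hB⟩ := (isCompact_Icc (a := (0 : ℝ)) (b := T)).bddAbove_image hcont.continuousOn
  have hB' : ∀ s : ℝ, 0 ≤ s → s ≤ T → dist (φ s z) z ≤ B := fun s h4 h5 =>
    hB ⟨s, ⟨h4, h5⟩, rfl⟩
  refine ⟨c₀ / T, by positivity, c₀ + C₀ + B, fun n => ?_⟩
  have hn : (0 : ℝ) ≤ n / T := by positivity
  obtain ⟨k, hk⟩ : ∃ k, k = ⌊(n : ℝ) / T⌋₊ := ⟨_, rfl⟩
  have hk1 : (k : ℝ) ≤ n / T := by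
    rw [hk]
    exact Nat.floor_le hn
  have hk2 : (n : ℝ) / T < k + 1 := by
    rw [hk]
    exact Nat.lt_floor_add_one _
  have hs0 : 0 ≤ (n : ℝ) - k * T := by
    rw [le_div_iff₀ hT] at hk1
    linarith
  have hs1 : (n : ℝ) - k * T ≤ T := by
    rw [div_lt_iff₀ hT] at hk2
    linarith
  have e1 : φ n z = (g ^ k) • φ ((n : ℝ) - k * T) z := by
    have e2 : (n : ℝ) = ((n : ℝ) - k * T) + k * T := by ring
    conv_lhs => rw [e2]
    rw [hφ.add, PER.pow_orbit Γ φ hφ hφΓ z T g hg k, hφΓ]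
  have e3 : dist ((g ^ k) • φ ((n : ℝ) - k * T) z) ((g ^ k) • z) =
      dist (φ ((n : ℝ) - k * T) z) z :=
    dist_smul ((g ^ k : Γ) : SL(2, ℝ)) _ _
  have e4 : c₀ * k - C₀ ≤ dist ((g ^ k) • z) z := hC₀ k
  have e5 := dist_triangle ((g ^ k) • z) ((g ^ k) • φ ((n : ℝ) - k * T) z) z
  rw [dist_comm ((g ^ k) • z) ((g ^ k) • φ ((n : ℝ) - k * T) z), e3] at e5
  have e6 := hB' _ hs0 hs1
  have e7 : c₀ / T * n ≤ c₀ * (k + 1) := by
    have : c₀ / T * n = c₀ * (n / T) := by ring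
    rw [this]
    exact mul_le_mul_of_nonneg_left hk2.le hc₀.le
  rw [e1]
  linarith

end Pool.Agent.H59.CFL
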