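import Pool.Agent.H59.CFL.Targets

/-!
# Row RTM of the board `cfl_modules`: the return map (helper4)
-/

set_option autoImplicit false

open Filter Topology Set

namespace Pool.Agent.H59.CFL

open Pool.Agent.H61.SF (IsFlow)

namespace RTM

theorem strictMono_local {f : ℝ → ℝ} {a b : ℝ} (hc : ContinuousOn f (Icc a b))
    (hl : ∀ s₁ ∈ Icc a b, ∃ ρ > 0, ∀ s ∈ Icc a b, |s - s₁| < ρ → s₁ < s → f s₁ < f s) :
    StrictMonoOn f (Icc a b) := by
  intro x hx y hy hxy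
  have hsub : Icc x y ⊆ Icc a b := Icc_subset_Icc hx.1 hy.2
  have hmax : ∀ m ∈ Icc x y, (∀ z ∈ Icc x y, f z ≤ f m) → m = y := by
    intro m hm hm2
    by_contra hne
    have hmy : m < y := lt_of_le_of_ne hm.2 hne
    obtain ⟨ρ, hρ, hl'⟩ := hl m (hsub hm)
    have h1 : m < min y (m + ρ / 2) := lt_min hmy (by linarith)
    have h2 : min y (m + ρ / 2) ∈ Icc x y := ⟨hm.1.trans h1.le, min_le_left _ _⟩
    have h3 : |min y (m + ρ / 2) - m| < ρ := by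
      rw [abs_of_pos (by linarith)]
      have := min_le_right y (m + ρ / 2)
      linarith
    have h4 := hl' _ (hsub h2) h3 h1
    exact absurd (hm2 _ h2) (not_le.2 h4)
  obtain ⟨m, hm, hm2⟩ := isCompact_Icc.exists_isMaxOn (nonempty_Icc.2 hxy.le) (hc.mono hsub)
  have hm3 : ∀ z ∈ Icc x y, f z ≤ f m := fun z hz => hm2 hz
  have hmy := hmax m hm hm3
  rw [hmy] at hm3
  have hxm : x ∈ Icc x y := ⟨le_rfl, hxy.le⟩
  rcases (hm3 x hxm).lt_or_eq with h | h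
  · exact h
  · exfalso
    have := hmax x hxm fun z hz => by
      rw [h]
      exact hm3 z hz
    exact hxy.ne this

section

variable {S : Type} [TopologicalSpace S] {ψ : ℝ → S → S} {σ : ℝ → S} {δ : ℝ}

theorem fl_sub (h : IsFlow ψ) {a b : ℝ} {x y : S} (e : ψ a x = ψ b y) : ψ (a - b) x = y := by
  have h1 : ψ (-b) (ψ a x) = ψ (-b) (ψ b y) := by rw [e]
  rw [← h.add, ← h.add, neg_add_cancel, h.zero] at h1
  rw [sub_eq_neg_add]
  exact h1

/-- the coordinates of the box -/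
theorem coord (hB : IsBox ψ σ δ) : ∃ N : S → ℝ × ℝ, ∃ O : Set S, IsOpen O ∧
    ContinuousOn N O ∧ (∀ t s : ℝ, |t| < δ → |s| < 1 → ψ t (σ s) ∈ O ∧ N (ψ t (σ s)) = (t, s)) ∧
    ∀ y ∈ O, |(N y).1| < δ ∧ |(N y).2| < 1 ∧ y = ψ (N y).1 (σ (N y).2) := by
  classical
  set D : Set (ℝ × ℝ) := {p | |p.1| < δ ∧ |p.2| < 1} with hD
  have hDo : IsOpen D := by
    have h1 : IsOpen {p : ℝ × ℝ | |p.1| < δ} := isOpen_lt (by fun_prop) continuous_const
    have h2 : IsOpen {p : ℝ × ℝ | |p.2| < 1} := isOpen_lt (by fun_prop) continuous_const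
    exact h1.inter h2
  set N : S → ℝ × ℝ := fun y => if h : ∃ p : ℝ × ℝ, p ∈ D ∧ ψ p.1 (σ p.2) = y then h.choose
    else (0, 0) with hN
  set O : Set S := (fun p : ℝ × ℝ => ψ p.1 (σ p.2)) '' D with hO
  have hN1 : ∀ y ∈ O, N y ∈ D ∧ ψ (N y).1 (σ (N y).2) = y := by
    intro y hy
    have h : ∃ p : ℝ × ℝ, p ∈ D ∧ ψ p.1 (σ p.2) = y := hy
    have e : N y = h.choose := dif_pos h
    rw [e]
    exact h.choose_spec
  have hN2 : ∀ t s : ℝ, |t| < δ → |s| < 1 → ψ t (σ s) ∈ O ∧ N (ψ t (σ s)) = (t, s) := by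
    intro t s ht hs
    have hy : ψ t (σ s) ∈ O := ⟨(t, s), ⟨ht, hs⟩, rfl⟩
    obtain ⟨⟨h1, h2⟩, h3⟩ := hN1 _ hy
    obtain ⟨h4, h5⟩ := hB.inj _ _ _ _ h1 h2 ht hs h3
    exact ⟨hy, Prod.ext h4 h5⟩
  refine ⟨N, O, hB.isOpen D hDo fun p hp => hp, ?_, hN2, fun y hy => ?_⟩
  · have hOo : IsOpen O := hB.isOpen D hDo fun p hp => hp
    rw [continuousOn_open_iff hOo]
    intro U hU
    have h1 : O ∩ N ⁻¹' U = (fun p : ℝ × ℝ => ψ p.1 (σ p.2)) '' (D ∩ U) := by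
      ext y
      constructor
      · rintro ⟨hy, hyU⟩
        obtain ⟨h2, h3⟩ := hN1 y hy
        exact ⟨N y, ⟨h2, hyU⟩, h3⟩
      · rintro ⟨⟨t, s⟩, ⟨⟨ht, hs⟩, hU2⟩, rfl⟩
        obtain ⟨h2, h3⟩ := hN2 t s ht hs
        refine ⟨h2, ?_⟩
        show N (ψ t (σ s)) ∈ U
        rw [h3]
        exact hU2
    rw [h1]
    exact hB.isOpen (D ∩ U) (hDo.inter hU) fun p hp => hp.1
  · obtain ⟨h1, h2⟩ := hN1 y hy
    exact ⟨h1.1, h1.2, h2.symm⟩

end

end RTM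

open RTM in
theorem rtm : T_RTM := by
  intro S _ ψ σ δ hF hB T b hT hb hb1 hTb
  have hδ := hB.pos
  obtain ⟨N, O, hO, hNc, hN1, hN2⟩ := coord hB
  set F : ℝ → S := fun s => ψ T (σ s) with hFdef
  have hFc : Continuous F := (hF.cont1 T).comp hB.cont
  have h0 : F 0 ∈ O ∧ N (F 0) = (0, b) := by
    have h1 := hN1 0 b (by rw [abs_zero]; exact hδ) (by rw [abs_of_pos hb]; exact hb1)
    rw [hF.zero] at h1
    show ψ T (σ 0) ∈ O ∧ N (ψ T (σ 0)) = (0, b)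
    rw [hTb]
    exact h1
  set A : Set ℝ := F ⁻¹' O with hA
  have hAo : IsOpen A := hO.preimage hFc
  have hGc : ContinuousOn (fun s => N (F s)) A := hNc.comp hFc.continuousOn fun s hs => hs
  set θ : ℝ → ℝ := fun s => (N (F s)).1 with hθ
  set P : ℝ → ℝ := fun s => (N (F s)).2 with hP
  have hθc : ContinuousOn θ A := continuous_fst.comp_continuousOn hGc
  have hPc : ContinuousOn P A := continuous_snd.comp_continuousOn hGc
  have hθ0 : θ 0 = 0 := by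
    show (N (F 0)).1 = 0
    rw [h0.2]
  have hP0 : P 0 = b := by
    show (N (F 0)).2 = b
    rw [h0.2]
  have hA0 : A ∈ 𝓝 (0 : ℝ) := hAo.mem_nhds h0.1
  have e1 : ∀ᶠ s in 𝓝 (0 : ℝ), |θ s| < min T (δ / 2) := by
    have h1 : ContinuousAt (fun s => |θ s|) 0 := (hθc.continuousAt hA0).abs
    have h2 : |θ 0| < min T (δ / 2) := by
      rw [hθ0, abs_zero]
      exact lt_min hT (by positivity)
    exact h1.eventually_lt continuousAt_const h2
  have e2 : ∀ᶠ s in 𝓝 (0 : ℝ), b / 2 < P s :=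
    continuousAt_const.eventually_lt (hPc.continuousAt hA0) (by rw [hP0]; linarith)
  obtain ⟨ε₀, hε₀, hball⟩ := Metric.eventually_nhds_iff.1 (e1.and (e2.and hA0))
  set ε : ℝ := min (ε₀ / 2) (b / 4) with hε
  have hεpos : 0 < ε := lt_min (by positivity) (by positivity)
  have hε1 : ε ≤ ε₀ / 2 := min_le_left _ _
  have hε2 : ε ≤ b / 4 := min_le_right _ _
  have hin : ∀ s ∈ Icc (-ε) ε, |θ s| < T ∧ |θ s| < δ / 2 ∧ b / 2 < P s ∧ s ∈ A := by
    intro s hs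
    have h1 : dist s 0 < ε₀ := by
      rw [Real.dist_0_eq_abs, abs_lt]
      constructor <;> linarith [hs.1, hs.2]
    obtain ⟨h2, h3, h4⟩ := hball h1
    exact ⟨h2.trans_le (min_le_left _ _), h2.trans_le (min_le_right _ _), h3, h4⟩
  have hsub : Icc (-ε) ε ⊆ A := fun s hs => (hin s hs).2.2.2
  have hP1 : ∀ s ∈ Icc (-ε) ε, |P s| < 1 := fun s hs => (hN2 (F s) (hsub hs)).2.1
  have hret : ∀ s ∈ Icc (-ε) ε, ψ (T - θ s) (σ s) = σ (P s) := fun s hs =>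
    fl_sub hF (hN2 (F s) (hsub hs)).2.2
  have m0 : (0 : ℝ) ∈ Icc (-ε) ε := ⟨by linarith, hεpos.le⟩
  have mm : -ε ∈ Icc (-ε) ε := ⟨le_rfl, by linarith⟩
  have mp : ε ∈ Icc (-ε) ε := ⟨by linarith, le_rfl⟩
  refine ⟨ε, fun s => T - θ s, P, hεpos, ?_, ?_, ?_, hP0, ?_, hPc.mono hsub, ?_, ?_, hret⟩
  · have := (hin _ mm).2.2.1
    linarith
  · exact (abs_lt.1 (hP1 _ mp)).2
  · show T - θ 0 = T
    rw [hθ0, sub_zero]
  · exact continuousOn_const.sub (hθc.mono hsub)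
  · refine strictMono_local (hPc.mono hsub) fun s₁ hs₁ => ?_
    have hs1 : |s₁| < 1 := by
      rw [abs_lt]
      constructor <;> linarith [hs₁.1, hs₁.2]
    obtain ⟨ρ, hρ, hor⟩ := hB.ori (T - θ s₁) s₁ (P s₁) hs1 (hP1 s₁ hs₁) (hret s₁ hs₁)
    refine ⟨ρ, hρ, fun s hs hss hlt => ?_⟩
    have hs2 : |s| < 1 := by
      rw [abs_lt]
      constructor <;> linarith [hs.1, hs.2]
    have h1 := abs_lt.1 (hin s hs).2.1
    have h2 := abs_lt.1 (hin s₁ hs₁).2.1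
    refine (hor s ((T - θ s₁) - (T - θ s)) (P s) hss hs2 ?_ (hP1 s hs) ?_).1 hlt
    · rw [abs_lt]
      constructor <;> linarith [h1.1, h1.2, h2.1, h2.2]
    · rw [← hret s hs, ← hF.add, sub_add_cancel]
  · intro s hs
    have h1 := abs_lt.1 (hin s hs).1
    show 0 < T - θ s
    linarith [h1.2]

end Pool.Agent.H59.CFL
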