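import Pool.Agent.H59.CFL.Targets

/-!
# Row TRV of the board `cfl_modules`: the closed transversal curve (helper4)
-/

set_option autoImplicit false

open Filter Topology Set

namespace Pool.Agent.H59.CFL

open Pool.Agent.H61.SF (IsFlow)

namespace TRV

/-- the time of the curve above the section -/
noncomputable def kf (ε : ℝ) (Tm : ℝ → ℝ) (s : ℝ) : ℝ := Tm s * max 0 (min 1 ((ε / 2 - s) / ε))

theorem kf_hi {ε : ℝ} (Tm : ℝ → ℝ) (hε : 0 < ε) {s : ℝ} (h : ε / 2 ≤ s) : kf ε Tm s = 0 := by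
  unfold kf
  have h1 : (ε / 2 - s) / ε ≤ 0 := div_nonpos_of_nonpos_of_nonneg (by linarith) hε.le
  rw [max_eq_left ((min_le_right _ _).trans h1), mul_zero]

theorem kf_lo {ε : ℝ} (Tm : ℝ → ℝ) (hε : 0 < ε) {s : ℝ} (h : s ≤ -(ε / 2)) :
    kf ε Tm s = Tm s := by
  unfold kf
  have h1 : 1 ≤ (ε / 2 - s) / ε := by
    rw [le_div_iff₀ hε]
    linarith
  rw [min_eq_left h1, max_eq_right zero_le_one, mul_one]

theorem kf_nonneg {ε : ℝ} {Tm : ℝ → ℝ} {s : ℝ} (h : 0 < Tm s) : 0 ≤ kf ε Tm s :=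
  mul_nonneg h.le (le_max_left _ _)

theorem kf_le {ε : ℝ} {Tm : ℝ → ℝ} {s : ℝ} (h : 0 < Tm s) : kf ε Tm s ≤ Tm s :=
  mul_le_of_le_one_right h.le (max_le zero_le_one (min_le_left _ _))

theorem kf_cont {ε : ℝ} {Tm : ℝ → ℝ} (h : ContinuousOn Tm (Icc (-ε) ε)) :
    ContinuousOn (kf ε Tm) (Icc (-ε) ε) := by
  unfold kf
  refine h.mul (Continuous.continuousOn ?_)
  fun_prop

section

variable {S : Type} [TopologicalSpace S] {ψ : ℝ → S → S} {σ : ℝ → S} {δ ε : ℝ} {Tm P : ℝ → ℝ}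

theorem fl_sub (h : IsFlow ψ) {a b : ℝ} {x y : S} (e : ψ a x = ψ b y) : ψ (a - b) x = y := by
  have h1 : ψ (-b) (ψ a x) = ψ (-b) (ψ b y) := by rw [e]
  rw [← h.add, ← h.add, neg_add_cancel, h.zero] at h1
  rw [sub_eq_neg_add]
  exact h1

/-- the point `y` is reached from the curve at the time `ρ` -/
def Rl (ψ : ℝ → S → S) (σ : ℝ → S) (ε : ℝ) (Tm P : ℝ → ℝ) (y : S) (ρ : ℝ) : Prop :=
  (∃ c, ε / 2 < c ∧ c < P (-(ε / 2)) ∧ y = ψ ρ (σ c)) ∨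
    ∃ s, |s| < ε ∧ y = ψ (ρ + kf ε Tm s) (σ s)

theorem ret_facts (h : IsRet ψ σ δ ε Tm P) : P (-ε) < P (-(ε / 2)) ∧ P (-(ε / 2)) < P ε ∧
    ε < 1 ∧ ∀ s, |s| < ε → P (-ε) < P s ∧ P s < P ε := by
  have he := h.epos
  have m0 : -ε ∈ Icc (-ε) ε := ⟨le_rfl, by linarith⟩
  have m1 : ε ∈ Icc (-ε) ε := ⟨by linarith, le_rfl⟩
  have m2 : -(ε / 2) ∈ Icc (-ε) ε := ⟨by linarith, by linarith⟩
  have a1 : P (-ε) < P (-(ε / 2)) := h.mono m0 m2 (by linarith)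
  have a2 : P (-(ε / 2)) < P ε := h.mono m2 m1 (by linarith)
  refine ⟨a1, a2, by linarith [h.elt, h.plt], fun s hs => ?_⟩
  have hs' := abs_lt.1 hs
  have m3 : s ∈ Icc (-ε) ε := ⟨hs'.1.le, hs'.2.le⟩
  exact ⟨h.mono m0 m3 hs'.1, h.mono m3 m1 hs'.2⟩

theorem key21 (hδ : 0 < δ) (h : IsRet ψ σ δ ε Tm P) {d s c : ℝ} (hd : |d| ≤ δ / 8)
    (hs : |s| < ε) (hc1 : ε / 2 < c) (hc2 : c < P (-(ε / 2)))
    (e : ψ (d + kf ε Tm s) (σ s) = σ c) : d = 0 := by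
  have he := h.epos
  have hs' := abs_lt.1 hs
  have hd' := abs_le.1 hd
  have ms : s ∈ Icc (-ε) ε := ⟨hs'.1.le, hs'.2.le⟩
  have m2 : -(ε / 2) ∈ Icc (-ε) ε := ⟨by linarith, by linarith⟩
  have k0 : 0 ≤ kf ε Tm s := kf_nonneg (h.tpos s ms)
  have k1 : kf ε Tm s ≤ Tm s := kf_le (h.tpos s ms)
  obtain ⟨f1, f2, f3, f4⟩ := ret_facts h
  rcases h.fr s ms (d + kf ε Tm s) c (by linarith) (by linarith) (by linarith) (by linarith) e with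
    ⟨h1, h2⟩ | ⟨h1, h2⟩
  · rw [kf_hi Tm he (by linarith)] at h1
    linarith
  · have h3 : s < -(ε / 2) := by
      by_contra hcon
      have := h.mono.monotoneOn m2 ms (not_lt.1 hcon)
      linarith
    rw [kf_lo Tm he h3.le] at h1
    linarith

theorem key22 (hδ : 0 < δ) (h : IsRet ψ σ δ ε Tm P) {d s s' : ℝ} (hd : |d| ≤ δ / 8)
    (hs : |s| < ε) (hs2 : |s'| < ε) (hpos : 0 ≤ d + kf ε Tm s - kf ε Tm s')
    (e : ψ (d + kf ε Tm s - kf ε Tm s') (σ s) = σ s') : d = 0 := by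
  have he := h.epos
  have hs' := abs_lt.1 hs
  have hs2' := abs_lt.1 hs2
  have hd' := abs_le.1 hd
  have ms : s ∈ Icc (-ε) ε := ⟨hs'.1.le, hs'.2.le⟩
  have ms2 : s' ∈ Icc (-ε) ε := ⟨hs2'.1.le, hs2'.2.le⟩
  have k0 : 0 ≤ kf ε Tm s' := kf_nonneg (h.tpos s' ms2)
  have k1 : kf ε Tm s ≤ Tm s := kf_le (h.tpos s ms)
  obtain ⟨f1, f2, f3, f4⟩ := ret_facts h
  have g1 := f4 s hs
  have g2 := h.elt
  rcases h.fr s ms (d + kf ε Tm s - kf ε Tm s') s' (by linarith) (by linarith) (by linarith)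
    (by linarith) e with ⟨h1, h2⟩ | ⟨h1, h2⟩
  · rw [h2] at h1
    linarith
  · linarith

theorem uniq (hF : IsFlow ψ) (hB : IsBox ψ σ δ) (h : IsRet ψ σ δ ε Tm P) {y : S} {ρ ρ' : ℝ}
    (hρ : |ρ| < δ / 16) (hρ' : |ρ'| < δ / 16) (h1 : Rl ψ σ ε Tm P y ρ)
    (h2 : Rl ψ σ ε Tm P y ρ') : ρ = ρ' := by
  have hδ := hB.pos
  have he := h.epos
  obtain ⟨f1, f2, f3, f4⟩ := ret_facts h
  have g2 := h.elt
  have g3 := h.plt
  have b1 := abs_lt.1 hρ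
  have b2 := abs_lt.1 hρ'
  rcases h1 with ⟨c, hc1, hc2, hc⟩ | ⟨s, hs, hsy⟩
  · rcases h2 with ⟨c', hc1', hc2', hc'⟩ | ⟨s', hs', hsy'⟩
    · refine (hB.inj ρ c ρ' c' (by linarith) ?_ (by linarith) ?_ (hc.symm.trans hc')).1
      · rw [abs_lt]; constructor <;> linarith
      · rw [abs_lt]; constructor <;> linarith
    · have e1 : ψ (ρ' + kf ε Tm s') (σ s') = ψ ρ (σ c) := hsy'.symm.trans hc
      have e2 := fl_sub hF e1
      have e3 : ρ' + kf ε Tm s' - ρ = (ρ' - ρ) + kf ε Tm s' := by ring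
      rw [e3] at e2
      have := key21 hδ h (by rw [abs_le]; constructor <;> linarith) hs' hc1 hc2 e2
      linarith
  · rcases h2 with ⟨c', hc1', hc2', hc'⟩ | ⟨s', hs', hsy'⟩
    · have e1 : ψ (ρ + kf ε Tm s) (σ s) = ψ ρ' (σ c') := hsy.symm.trans hc'
      have e2 := fl_sub hF e1
      have e3 : ρ + kf ε Tm s - ρ' = (ρ - ρ') + kf ε Tm s := by ring
      rw [e3] at e2
      have := key21 hδ h (by rw [abs_le]; constructor <;> linarith) hs hc1' hc2' e2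
      linarith
    · have e1 : ψ (ρ + kf ε Tm s) (σ s) = ψ (ρ' + kf ε Tm s') (σ s') := hsy.symm.trans hsy'
      rcases le_total 0 (ρ - ρ' + kf ε Tm s - kf ε Tm s') with hp | hp
      · have e2 := fl_sub hF e1
        have e3 : ρ + kf ε Tm s - (ρ' + kf ε Tm s') = (ρ - ρ') + kf ε Tm s - kf ε Tm s' := by ring
        rw [e3] at e2
        have := key22 hδ h (by rw [abs_le]; constructor <;> linarith) hs hs' hp e2
        linarith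
      · have e2 := fl_sub hF e1.symm
        have e3 : ρ' + kf ε Tm s' - (ρ + kf ε Tm s) = (ρ' - ρ) + kf ε Tm s' - kf ε Tm s := by ring
        rw [e3] at e2
        have := key22 hδ h (by rw [abs_le]; constructor <;> linarith) hs' hs (by linarith) e2
        linarith

theorem img_open (hF : IsFlow ψ) (t : ℝ) {U : Set S} (hU : IsOpen U) : IsOpen (ψ t '' U) := by
  have h1 : ψ t '' U = ψ (-t) ⁻¹' U := by
    ext y
    constructor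
    · rintro ⟨x, hx, rfl⟩
      show ψ (-t) (ψ t x) ∈ U
      rw [← hF.add, neg_add_cancel, hF.zero]
      exact hx
    · intro hy
      refine ⟨ψ (-t) y, hy, ?_⟩
      rw [← hF.add, add_neg_cancel, hF.zero]
  rw [h1]
  exact hU.preimage (hF.cont1 (-t))

theorem open1 (hB : IsBox ψ σ δ) (h : IsRet ψ σ δ ε Tm P) {J : Set ℝ} (hJ : IsOpen J)
    (hJδ : ∀ ρ ∈ J, |ρ| < δ) :
    IsOpen {y : S | ∃ ρ ∈ J, ∃ c, ε / 2 < c ∧ c < P (-(ε / 2)) ∧ y = ψ ρ (σ c)} := by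
  have he := h.epos
  obtain ⟨f1, f2, f3, f4⟩ := ret_facts h
  have g3 := h.plt
  have h1 := hB.isOpen (J ×ˢ Ioo (ε / 2) (P (-(ε / 2)))) (hJ.prod isOpen_Ioo) (by
    rintro ⟨ρ, c⟩ ⟨hp1, hp2⟩
    refine ⟨hJδ ρ hp1, ?_⟩
    have a1 : ε / 2 < c := hp2.1
    have a2 : c < P (-(ε / 2)) := hp2.2
    show |c| < 1
    rw [abs_lt]
    constructor <;> linarith)
  have h2 : {y : S | ∃ ρ ∈ J, ∃ c, ε / 2 < c ∧ c < P (-(ε / 2)) ∧ y = ψ ρ (σ c)} =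
      (fun p : ℝ × ℝ => ψ p.1 (σ p.2)) '' (J ×ˢ Ioo (ε / 2) (P (-(ε / 2)))) := by
    ext y
    constructor
    · rintro ⟨ρ, hρ, c, hc1, hc2, rfl⟩
      exact ⟨(ρ, c), ⟨hρ, hc1, hc2⟩, rfl⟩
    · rintro ⟨⟨ρ, c⟩, ⟨hρ, hc⟩, rfl⟩
      exact ⟨ρ, hρ, c, hc.1, hc.2, rfl⟩
  rw [h2]
  exact h1

theorem open2 (hF : IsFlow ψ) (hB : IsBox ψ σ δ) (h : IsRet ψ σ δ ε Tm P) {J : Set ℝ}
    (hJ : IsOpen J) :
    IsOpen {y : S | ∃ ρ ∈ J, ∃ s, |s| < ε ∧ y = ψ (ρ + kf ε Tm s) (σ s)} := by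
  have he := h.epos
  have hδ := hB.pos
  obtain ⟨f1, f2, f3, f4⟩ := ret_facts h
  rw [isOpen_iff_forall_mem_open]
  rintro y ⟨ρ₀, hρ₀, s₀, hs₀, rfl⟩
  set t₀ : ℝ := ρ₀ + kf ε Tm s₀ with ht₀
  set U : Set (ℝ × ℝ) := (Ioo (-δ) δ ×ˢ Ioo (-ε) ε) ∩
    (fun p : ℝ × ℝ => t₀ + p.1 - kf ε Tm p.2) ⁻¹' J with hU
  have hUo : IsOpen U := by
    have hc : ContinuousOn (fun p : ℝ × ℝ => t₀ + p.1 - kf ε Tm p.2)
        (Ioo (-δ) δ ×ˢ Ioo (-ε) ε) := by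
      refine ContinuousOn.sub (by fun_prop) ?_
      exact (kf_cont h.contT).comp continuousOn_snd fun p hp => ⟨hp.2.1.le, hp.2.2.le⟩
    exact hc.isOpen_inter_preimage (isOpen_Ioo.prod isOpen_Ioo) hJ
  have hUb : ∀ p ∈ U, |p.1| < δ ∧ |p.2| < 1 := by
    rintro ⟨a, b⟩ ⟨⟨h1, h2⟩, -⟩
    have h2' : -ε < b ∧ b < ε := h2
    have h1' : -δ < a ∧ a < δ := h1
    refine ⟨abs_lt.2 h1', ?_⟩
    show |b| < 1
    rw [abs_lt]
    constructor <;> linarith [h2'.1, h2'.2]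
  refine ⟨ψ t₀ '' ((fun p : ℝ × ℝ => ψ p.1 (σ p.2)) '' U), ?_,
    img_open hF t₀ (hB.isOpen U hUo hUb), ?_⟩
  · rintro y ⟨x, ⟨⟨a, b⟩, ⟨⟨h1, h2⟩, h3⟩, rfl⟩, rfl⟩
    have h2' : -ε < b ∧ b < ε := h2
    refine ⟨t₀ + a - kf ε Tm b, h3, b, abs_lt.2 h2', ?_⟩
    show ψ t₀ (ψ a (σ b)) = _
    rw [← hF.add, sub_add_cancel]
  · refine ⟨σ s₀, ⟨(0, s₀), ⟨⟨⟨by linarith, hδ⟩, abs_lt.1 hs₀⟩, ?_⟩, ?_⟩, rfl⟩
    · show t₀ + 0 - kf ε Tm s₀ ∈ J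
      have : t₀ + 0 - kf ε Tm s₀ = ρ₀ := by rw [ht₀]; ring
      rw [this]
      exact hρ₀
    · show ψ 0 (σ s₀) = σ s₀
      exact hF.zero _

theorem openJ (hF : IsFlow ψ) (hB : IsBox ψ σ δ) (h : IsRet ψ σ δ ε Tm P) {J : Set ℝ}
    (hJ : IsOpen J) (hJδ : ∀ ρ ∈ J, |ρ| < δ) : IsOpen {y : S | ∃ ρ ∈ J, Rl ψ σ ε Tm P y ρ} := by
  have h1 : {y : S | ∃ ρ ∈ J, Rl ψ σ ε Tm P y ρ} =
      {y : S | ∃ ρ ∈ J, ∃ c, ε / 2 < c ∧ c < P (-(ε / 2)) ∧ y = ψ ρ (σ c)} ∪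
      {y : S | ∃ ρ ∈ J, ∃ s, |s| < ε ∧ y = ψ (ρ + kf ε Tm s) (σ s)} := by
    ext y
    constructor
    · rintro ⟨ρ, hρ, h | h⟩
      · exact Or.inl ⟨ρ, hρ, h⟩
      · exact Or.inr ⟨ρ, hρ, h⟩
    · rintro (⟨ρ, hρ, h⟩ | ⟨ρ, hρ, h⟩)
      · exact ⟨ρ, hρ, Or.inl h⟩
      · exact ⟨ρ, hρ, Or.inr h⟩
  rw [h1]
  exact (open1 hB h hJ hJδ).union (open2 hF hB h hJ)

theorem closedJ [T2Space S] (hF : IsFlow ψ) (hB : IsBox ψ σ δ) (h : IsRet ψ σ δ ε Tm P)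
    (η' : ℝ) : IsClosed {y : S | ∃ ρ, |ρ| ≤ η' ∧ Rl ψ σ ε Tm P y ρ} := by
  have he := h.epos
  have hδ := hB.pos
  obtain ⟨f1, f2, f3, f4⟩ := ret_facts h
  have g2 := h.elt
  have m2 : -(ε / 2) ∈ Icc (-ε) ε := ⟨by linarith, by linarith⟩
  have h1 : {y : S | ∃ ρ, |ρ| ≤ η' ∧ Rl ψ σ ε Tm P y ρ} =
      ((fun p : ℝ × ℝ => ψ p.1 (σ p.2)) '' (Icc (-η') η' ×ˢ Icc (ε / 2) (P (-(ε / 2))))) ∪
      ((fun p : ℝ × ℝ => ψ (p.1 + kf ε Tm p.2) (σ p.2)) ''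
        (Icc (-η') η' ×ˢ Icc (-(ε / 2)) (ε / 2))) := by
    ext y
    constructor
    · rintro ⟨ρ, hρ, ⟨c, hc1, hc2, rfl⟩ | ⟨s, hs, rfl⟩⟩
      · exact Or.inl ⟨(ρ, c), ⟨abs_le.1 hρ, hc1.le, hc2.le⟩, rfl⟩
      · have hs' := abs_lt.1 hs
        have ms : s ∈ Icc (-ε) ε := ⟨hs'.1.le, hs'.2.le⟩
        rcases lt_or_ge (ε / 2) s with h2 | h2
        · left
          refine ⟨(ρ, s), ⟨abs_le.1 hρ, h2.le, ?_⟩, ?_⟩
          · show s ≤ P (-(ε / 2))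
            linarith
          · show ψ ρ (σ s) = _
            rw [kf_hi Tm he h2.le, add_zero]
        · rcases lt_or_ge s (-(ε / 2)) with h3 | h3
          · left
            refine ⟨(ρ, P s), ⟨abs_le.1 hρ, ?_, ?_⟩, ?_⟩
            · show ε / 2 ≤ P s
              have := (f4 s hs).1
              linarith
            · show P s ≤ P (-(ε / 2))
              exact (h.mono ms m2 h3).le
            · show ψ ρ (σ (P s)) = _
              rw [kf_lo Tm he h3.le, hF.add, h.ret s ms]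
          · right
            exact ⟨(ρ, s), ⟨abs_le.1 hρ, h3, h2⟩, rfl⟩
    · rintro (⟨⟨ρ, c⟩, ⟨hρ, hc1, hc2⟩, rfl⟩ | ⟨⟨ρ, s⟩, ⟨hρ, hs1, hs2⟩, rfl⟩)
      · refine ⟨ρ, abs_le.2 hρ, ?_⟩
        have hc1' : ε / 2 ≤ c := hc1
        have hc2' : c ≤ P (-(ε / 2)) := hc2
        rcases hc1'.lt_or_eq with h2 | h2
        · rcases hc2'.lt_or_eq with h3 | h3
          · exact Or.inl ⟨c, h2, h3, rfl⟩
          · right
            refine ⟨-(ε / 2), by rw [abs_neg, abs_of_pos (by linarith)]; linarith, ?_⟩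
            show ψ ρ (σ c) = _
            rw [kf_lo Tm he le_rfl, hF.add, h.ret _ m2, h3]
        · right
          refine ⟨ε / 2, by rw [abs_of_pos (by linarith)]; linarith, ?_⟩
          show ψ ρ (σ c) = _
          rw [kf_hi Tm he le_rfl, add_zero, h2]
      · have hs1' : -(ε / 2) ≤ s := hs1
        have hs2' : s ≤ ε / 2 := hs2
        refine ⟨ρ, abs_le.2 hρ, Or.inr ⟨s, ?_, rfl⟩⟩
        rw [abs_lt]
        constructor <;> linarith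
  rw [h1]
  refine IsClosed.union ?_ ?_
  · have hc : Continuous (fun p : ℝ × ℝ => ψ p.1 (σ p.2)) :=
      hF.cont.comp (continuous_fst.prodMk (hB.cont.comp continuous_snd))
    exact ((isCompact_Icc.prod isCompact_Icc).image hc).isClosed
  · have hc : ContinuousOn (fun p : ℝ × ℝ => ψ (p.1 + kf ε Tm p.2) (σ p.2))
        (Icc (-η') η' ×ˢ Icc (-(ε / 2)) (ε / 2)) := by
      have hk : ContinuousOn (fun p : ℝ × ℝ => kf ε Tm p.2)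
          (Icc (-η') η' ×ˢ Icc (-(ε / 2)) (ε / 2)) := by
        refine (kf_cont h.contT).comp continuousOn_snd fun p hp => ?_
        have a1 : -(ε / 2) ≤ p.2 := hp.2.1
        have a2 : p.2 ≤ ε / 2 := hp.2.2
        exact ⟨by linarith, by linarith⟩
      refine hF.cont.comp_continuousOn (ContinuousOn.prodMk ?_ ?_)
      · exact continuousOn_fst.add hk
      · exact (hB.cont.comp continuous_snd).continuousOn
    exact ((isCompact_Icc.prod isCompact_Icc).image_of_continuousOn hc).isClosed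

end

end TRV

open TRV in
theorem trv : T_TRV := by
  classical
  intro S _ _ ψ σ δ hF hB ε Tm P h
  have hδ := hB.pos
  have he := h.epos
  set V : Set S := {y | ∃ ρ ∈ Ioo (-(δ / 16)) (δ / 16), Rl ψ σ ε Tm P y ρ} with hV
  set r : S → ℝ := fun y => if hy : ∃ ρ ∈ Ioo (-(δ / 16)) (δ / 16), Rl ψ σ ε Tm P y ρ then
    hy.choose else 0 with hr
  have hr1 : ∀ y ∈ V, |r y| < δ / 16 ∧ Rl ψ σ ε Tm P y (r y) := by
    intro y hy
    have e1 : r y = hy.choose := dif_pos hy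
    rw [e1]
    exact ⟨abs_lt.2 hy.choose_spec.1, hy.choose_spec.2⟩
  have hr2 : ∀ y ρ, |ρ| < δ / 16 → Rl ψ σ ε Tm P y ρ → y ∈ V ∧ r y = ρ := by
    intro y ρ hρ hR
    have hy : y ∈ V := ⟨ρ, abs_lt.1 hρ, hR⟩
    obtain ⟨h1, h2⟩ := hr1 y hy
    exact ⟨hy, uniq hF hB h h1 hρ h2 hR⟩
  have hVJ : ∀ I : Set ℝ, V ∩ r ⁻¹' I =
      {y : S | ∃ ρ ∈ I ∩ Ioo (-(δ / 16)) (δ / 16), Rl ψ σ ε Tm P y ρ} := by
    intro I
    ext y
    constructor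
    · rintro ⟨hy, hyI⟩
      obtain ⟨h1, h2⟩ := hr1 y hy
      exact ⟨r y, ⟨hyI, abs_lt.1 h1⟩, h2⟩
    · rintro ⟨ρ, ⟨hρI, hρ⟩, hR⟩
      obtain ⟨h1, h2⟩ := hr2 y ρ (abs_lt.2 hρ) hR
      refine ⟨h1, ?_⟩
      show r y ∈ I
      rw [h2]
      exact hρI
  have hVo : IsOpen V := openJ hF hB h isOpen_Ioo fun ρ hρ => by
    rw [abs_lt]
    constructor <;> linarith [hρ.1, hρ.2]
  have k0 : ψ (kf ε Tm 0) (σ 0) ∈ V ∧ r (ψ (kf ε Tm 0) (σ 0)) = 0 := by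
    refine hr2 _ 0 (by rw [abs_zero]; positivity) (Or.inr ⟨0, by rw [abs_zero]; exact he, ?_⟩)
    rw [zero_add]
  refine ⟨V, r, δ / 16, kf ε Tm 0, ⟨by positivity, hVo, ?_, fun y hy => (hr1 y hy).1, ?_, ?_⟩,
    k0.1, k0.2⟩
  · rw [continuousOn_open_iff hVo]
    intro I hI
    rw [hVJ]
    refine openJ hF hB h (hI.inter isOpen_Ioo) fun ρ hρ => ?_
    rw [abs_lt]
    constructor <;> linarith [hρ.2.1, hρ.2.2]
  · intro y hy t ht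
    obtain ⟨h1, h2⟩ := hr1 y hy
    apply hr2 _ _ ht
    rcases h2 with ⟨c, hc1, hc2, hc⟩ | ⟨s, hs, hsy⟩
    · left
      refine ⟨c, hc1, hc2, ?_⟩
      conv_lhs => rw [hc]
      rw [← hF.add, add_comm]
    · right
      refine ⟨s, hs, ?_⟩
      conv_lhs => rw [hsy]
      rw [← hF.add]
      congr 1
      ring
  · intro η' hη'
    have e1 : {y | y ∈ V ∧ |r y| ≤ η'} = {y : S | ∃ ρ, |ρ| ≤ η' ∧ Rl ψ σ ε Tm P y ρ} := by
      ext y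
      constructor
      · rintro ⟨hy, hy2⟩
        exact ⟨r y, hy2, (hr1 y hy).2⟩
      · rintro ⟨ρ, hρ, hR⟩
        obtain ⟨h1, h2⟩ := hr2 y ρ (lt_of_le_of_lt hρ hη') hR
        refine ⟨h1, ?_⟩
        rw [h2]
        exact hρ
    rw [e1]
    exact closedJ hF hB h η'

end Pool.Agent.H59.CFL
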