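import Pool.Agent.H59.CFL.Asm
import Pool.Agent.H59.CFL.Along
import Pool.Agent.H59.CFL.INJ
import Pool.Agent.H74.CFL.TRA
import Pool.Agent.H59.CFL.HYP
import Pool.Agent.H59.CFL.PER
import Pool.Agent.H59.CFL.NULL
import Pool.Agent.H8.CFL.POI
import Pool.Agent.H8.CFL.CIR
import Pool.Agent.H8.CFL.LFT
import Pool.Agent.H59.CFL.FLD
import Pool.Agent.H59.CFL.BXH
import Pool.Agent.H59.CFL.ORI
import Pool.Agent.H59.CFL.BXS
import Pool.Agent.H59.CFL.FRT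
import Pool.Agent.H59.CFL.RTM
import Pool.Agent.H59.CFL.FRR
import Pool.Agent.H59.CFL.TRV

/-!
# C¹ flows on closed hyperbolic surfaces: the final assembly

Used for MP_b11560_gt.
-/

set_option autoImplicit false

open MeasureTheory Filter Topology Set
open scoped UpperHalfPlane MatrixGroups

namespace Pool.Agent.H59.CFL

open Pool.Agent.H61.SF (IsFlow)

/-- Measures without drift of a `C¹` flow. -/
theorem no_drift {Γ : Subgroup SL(2, ℝ)} (hΓ : IsDeckGroup Γ) [MeasurableSpace (Surf Γ)]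
    [BorelSpace (Surf Γ)] {φ : ℝ → ℍ → ℍ} (hφ : IsFlow φ) (hC1 : IsC1 φ)
    (hφΓ : ∀ (g : Γ) (t : ℝ) (z : ℍ), φ t (g • z) = g • φ t z) {ψ : ℝ → Surf Γ → Surf Γ}
    (hψ : ∀ t z, ψ t (proj Γ z) = proj Γ (φ t z)) {E : Set (Surf Γ)}
    (hE : ∀ (z : ℍ) (T : ℝ), 0 < T → φ T z = z → proj Γ z ∈ E) {μ : Measure (Surf Γ)}
    (hμ : IsProbabilityMeasure μ) (hinv : ∀ t, μ.map (ψ t) = μ)
    (hdr : Tendsto (fun T : ℝ => (∫ x, disp Γ φ T x ∂μ) / T) atTop (𝓝 0)) : μ Eᶜ = 0 :=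
  asm_hh (per inj H74.CFL.pf_TRA hyp) nul H8.CFL.pf_POI H8.CFL.pf_CIR H8.CFL.pf_LFT H8.CFL.pf_MON
    H8.CFL.pf_CHN H8.CFL.pf_LLP (bxs inj (bxh fld) (ori fld (orp fld))) frt H8.CFL.pf_FLP rtm frr
    trv H8.CFL.pf_FLX hΓ hφ hC1 hφΓ hψ hE hμ hinv hdr

/-- **Q1 for the non-spreading homeomorphisms along the trajectories of a `C¹` flow.** -/
theorem main (Γ : Subgroup SL(2, ℝ)) (hΓ : IsDeckGroup Γ) (φ : ℝ → ℍ → ℍ) (hφ : IsFlow φ)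
    (hC1 : IsC1 φ) (hφΓ : ∀ (g : Γ) (t : ℝ) (z : ℍ), φ t (g • z) = g • φ t z)
    (hrest : (RestPoints φ).Nonempty)
    (ψ : ℝ → Surf Γ → Surf Γ) (hψ : ∀ t z, ψ t (proj Γ z) = proj Γ (φ t z))
    (n : ℕ) (e : Fin n → ℂ → Surf Γ) (he : H61.SF.IsDiscFamily e)
    (hcl : ∀ (z : ℍ) (T : ℝ), 0 < T → φ T z = z → proj Γ z ∈ RestPoints ψ ∪ Trapped ψ e)
    (f : Surf Γ ≃ₜ Surf Γ) (τ : Surf Γ → ℝ) (hτ : Continuous τ) (F : ℍ → ℍ)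
    (hF : ∀ z, F z = φ (τ (proj Γ z)) z) (hfF : ∀ z, f (proj Γ z) = proj Γ (F z))
    (hns : NonSpreading Γ F) :
    ContinuousMap.id (Surf Γ) ∈ closure {k : C(Surf Γ, Surf Γ) |
      ∃ h : Surf Γ ≃ₜ Surf Γ, H61.SF.IsotopicToId h ∧ ∀ x, k x = h (f (h.symm x))} := by
  let _ : MeasurableSpace (Surf Γ) := borel _
  have _ : BorelSpace (Surf Γ) := ⟨rfl⟩
  exact along Γ hΓ φ hφ hφΓ hrest ψ hψ n e he
    (fun μ hμ hinv hdr => no_drift hΓ hφ hC1 hφΓ hψ hcl hμ hinv hdr) f τ hτ F hF hfF hns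

end Pool.Agent.H59.CFL
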