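import Pool.Agent.H59.CFL.Defs

/-!
# C¹ flows on closed hyperbolic surfaces: the targets of the board `cfl_modules`

Used for MP_b11560_gt.
-/

set_option autoImplicit false

open MeasureTheory Filter Topology Set
open scoped UpperHalfPlane MatrixGroups

namespace Pool.Agent.H59.CFL

open Pool.Agent.H61.SF (IsFlow)

/-! ### Block A: the group -/

/-- INJ: the injectivity radius is positive -/
def T_INJ : Prop := ∀ Γ : Subgroup SL(2, ℝ), IsDeckGroup Γ → ∃ c > 0, ∀ g : Γ,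
  (∃ z : ℍ, g • z ≠ z) → ∀ w : ℍ, c ≤ dist (g • w) w

/-- TRA: elliptic and parabolic elements have arbitrarily small displacement -/
def T_TRA : Prop := ∀ g : SL(2, ℝ), |Matrix.trace (g : Matrix (Fin 2) (Fin 2) ℝ)| ≤ 2 →
  ∀ ε > 0, ∃ w : ℍ, dist (g • w) w < ε

/-- HYP: the powers of a hyperbolic element move each point at a linear rate -/
def T_HYP : Prop := ∀ g : SL(2, ℝ), 2 < |Matrix.trace (g : Matrix (Fin 2) (Fin 2) ℝ)| →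
  ∀ z : ℍ, ∃ c > 0, ∃ C : ℝ, ∀ k : ℕ, c * k - C ≤ dist (g ^ k • z) z

/-- PER: closed trajectories of the surface that do not lift have a linear displacement -/
def T_PER : Prop := ∀ Γ : Subgroup SL(2, ℝ), IsDeckGroup Γ → ∀ φ : ℝ → ℍ → ℍ, IsFlow φ →
  (∀ (g : Γ) (t : ℝ) (z : ℍ), φ t (g • z) = g • φ t z) →
  ∀ (z : ℍ) (T : ℝ), 0 < T → ∀ g : Γ, φ T z = g • z → g • z ≠ z →
  ∃ c > 0, ∃ C : ℝ, ∀ n : ℕ, c * n - C ≤ dist (φ n z) z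

/-! ### Block M: measures -/

/-- NUL: the points with a linear displacement form a null set -/
def T_NUL : Prop := ∀ (S : Type) [TopologicalSpace S] [CompactSpace S] [MeasurableSpace S]
  [BorelSpace S] (D : ℝ → S → ℝ), Continuous (fun q : ℝ × S => D q.1 q.2) →
  (∀ t x, 0 ≤ D t x) → ∀ μ : Measure S, IsProbabilityMeasure μ →
  Tendsto (fun T : ℝ => (∫ x, D T x ∂μ) / T) atTop (𝓝 0) → ∀ A : Set S,
  (∀ x ∈ A, ∃ c > 0, ∃ C : ℝ, ∀ n : ℕ, c * n - C ≤ D n x) → μ A = 0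

/-- POI: Poincaré recurrence -/
def T_POI : Prop := ∀ (S : Type) [TopologicalSpace S] [SecondCountableTopology S]
  [MeasurableSpace S] [BorelSpace S] (ψ : ℝ → S → S), IsFlow ψ → ∀ μ : Measure S,
  IsProbabilityMeasure μ → (∀ t, μ.map (ψ t) = μ) →
  ∀ᵐ x ∂μ, ∀ U ∈ 𝓝 x, ∀ N : ℝ, ∃ t ≥ N, ψ t x ∈ U

/-- FLX: a nonnegative cocycle dominated by the displacement vanishes almost everywhere -/
def T_FLX : Prop := ∀ (S : Type) [TopologicalSpace S] [CompactSpace S] [MeasurableSpace S]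
  [BorelSpace S] (ψ : ℝ → S → S), IsFlow ψ → ∀ D G : ℝ → S → ℝ,
  Continuous (fun q : ℝ × S => D q.1 q.2) → Continuous (fun q : ℝ × S => G q.1 q.2) →
  (∀ s t x, G (s + t) x = G t x + G s (ψ t x)) → (∀ t, 0 ≤ t → ∀ x, 0 ≤ G t x) →
  (∃ C : ℝ, ∀ t x, G t x ≤ C * D t x + C) → ∀ μ : Measure S, IsProbabilityMeasure μ →
  (∀ t, μ.map (ψ t) = μ) → Tendsto (fun T : ℝ => (∫ x, D T x ∂μ) / T) atTop (𝓝 0) →
  ∀ W : Set S, (∀ x ∈ W, 0 < G 1 x) → μ W = 0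

/-! ### Block L: the map to the circle and its lift -/

/-- CIR: the map to the circle -/
def T_CIR : Prop := ∀ (S : Type) [TopologicalSpace S] (ψ : ℝ → S → S) (V : Set S) (r : S → ℝ)
  (η : ℝ), IsTrv ψ V r η → ∃ U : S → AddCircle (1 : ℝ), Continuous U ∧
  (∀ y ∈ V, U y = ((max 0 (min 1 ((r y + η / 2) / η)) : ℝ) : AddCircle (1 : ℝ))) ∧
  ∀ y, y ∉ V → U y = 0

/-- LFT: the lift -/
def T_LFT : Prop := ∀ (Γ : Subgroup SL(2, ℝ)) (U : Surf Γ → AddCircle (1 : ℝ)), Continuous U →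
  ∃ u : ℍ → ℝ, Continuous u ∧ (∀ z, (u z : AddCircle (1 : ℝ)) = U (proj Γ z)) ∧
  ∀ g : Γ, ∃ c : ℝ, ∀ z, u (g • z) = u z + c

/-- MON: the lift increases along the trajectories -/
def T_MON : Prop := ∀ (S X : Type) [TopologicalSpace S] [TopologicalSpace X] (ψ : ℝ → S → S)
  (φ : ℝ → X → X) (p : X → S), IsFlow ψ → IsFlow φ → Continuous p →
  (∀ t z, ψ t (p z) = p (φ t z)) → ∀ (V : Set S) (r : S → ℝ) (η : ℝ), IsTrv ψ V r η →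
  ∀ U : S → AddCircle (1 : ℝ), Continuous U →
  (∀ y ∈ V, U y = ((max 0 (min 1 ((r y + η / 2) / η)) : ℝ) : AddCircle (1 : ℝ))) →
  (∀ y, y ∉ V → U y = 0) → ∀ u : X → ℝ, Continuous u →
  (∀ z, (u z : AddCircle (1 : ℝ)) = U (p z)) →
  (∀ z, Monotone (fun t => u (φ t z))) ∧
  ∀ z, p z ∈ V → |r (p z)| < η / 2 → ∀ t > 0, u z < u (φ t z)

/-- CHN: from a bound at the unit scale to a bound at all scales -/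
def T_CHN : Prop := ∀ (u : ℍ → ℝ) (L : ℝ), (∀ z w : ℍ, dist z w ≤ 1 → |u z - u w| ≤ L) →
  ∃ C : ℝ, ∀ z w : ℍ, |u z - u w| ≤ C * dist z w + C

/-- LLP: the bound at the unit scale -/
def T_LLP : Prop := ∀ Γ : Subgroup SL(2, ℝ), IsDeckGroup Γ → ∀ u : ℍ → ℝ, Continuous u →
  (∀ g : Γ, ∃ c : ℝ, ∀ z, u (g • z) = u z + c) →
  ∃ L : ℝ, ∀ z w : ℍ, dist z w ≤ 1 → |u z - u w| ≤ L

/-! ### Block D: derivatives and flow boxes -/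

/-- FLD: the differentials of a `C¹` flow -/
def T_FLD : Prop := ∀ φ : ℝ → ℍ → ℍ, IsFlow φ → IsC1 φ → Continuous (vel φ) ∧
  (∀ (t : ℝ) (z : ℍ), HasDerivAt (fun s : ℝ => (φ s z : ℂ)) (vel φ (φ t z)) t) ∧
  (∀ (t : ℝ) (z : ℍ), HasFDerivAt
    (fun w : ℂ => (φ t (UpperHalfPlane.ofComplex w) : ℂ)) (spd φ t z) (z : ℂ)) ∧
  Continuous (fun p : ℝ × ℍ => spd φ p.1 p.2) ∧
  (∀ (t : ℝ) (z : ℍ), spd φ t z (vel φ z) = vel φ (φ t z)) ∧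
  (∀ (t : ℝ) (z : ℍ) (v : ℂ), spd φ t z v = 0 → v = 0) ∧
  (∀ z : ℍ, spd φ 0 z = ContinuousLinearMap.id ℝ ℂ) ∧
  ∀ z : ℍ, vel φ z = 0 → ∀ t, φ t z = z

/-- ORP: the differentials of a `C¹` flow preserve the orientation -/
def T_ORP : Prop := ∀ φ : ℝ → ℍ → ℍ, IsFlow φ → IsC1 φ → ∀ (z : ℍ) (v : ℂ),
  0 < crs (vel φ z) v → ∀ t : ℝ, 0 < crs (vel φ (φ t z)) (spd φ t z v)

/-- BXH: flow boxes in the plane -/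
def T_BXH : Prop := ∀ φ : ℝ → ℍ → ℍ, IsFlow φ → IsC1 φ → ∀ z₀ : ℍ, (∃ t, φ t z₀ ≠ z₀) →
  ∀ ρ > 0, ∃ (v : ℂ) (δ : ℝ), IsHBox φ z₀ v δ ρ

/-- ORI: the return maps preserve the orientation -/
def T_ORI : Prop := ∀ φ : ℝ → ℍ → ℍ, IsFlow φ → IsC1 φ → ∀ (z₀ : ℍ) (v : ℂ) (δ ρ : ℝ),
  IsHBox φ z₀ v δ ρ → ∀ g : SL(2, ℝ), (∀ (t : ℝ) (z : ℍ), φ t (g • z) = g • φ t z) →
  ∀ T a b : ℝ, |a| < 1 → |b| < 1 → φ T (pt z₀ v a) = g • pt z₀ v b → ∃ r > 0, ∀ s θ s' : ℝ,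
  |s - a| < r → |s| < 1 → |θ| < δ → |s'| < 1 → φ T (pt z₀ v s) = g • φ θ (pt z₀ v s') →
  (a < s → b < s') ∧ (s < a → s' < b)

/-- BXS: flow boxes in the surface -/
def T_BXS : Prop := ∀ Γ : Subgroup SL(2, ℝ), IsDeckGroup Γ → ∀ φ : ℝ → ℍ → ℍ, IsFlow φ →
  IsC1 φ → (∀ (g : Γ) (t : ℝ) (z : ℍ), φ t (g • z) = g • φ t z) →
  ∀ ψ : ℝ → Surf Γ → Surf Γ, (∀ t z, ψ t (proj Γ z) = proj Γ (φ t z)) →
  ∀ z₀ : ℍ, (∃ t, φ t z₀ ≠ z₀) →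
  ∃ (σ : ℝ → Surf Γ) (δ : ℝ), σ 0 = proj Γ z₀ ∧ IsBox ψ σ δ

/-! ### Block R: the return map and the transversal curve -/

/-- FRT: the first return -/
def T_FRT : Prop := ∀ (S : Type) [TopologicalSpace S] [T2Space S] (ψ : ℝ → S → S) (σ : ℝ → S)
  (δ : ℝ), IsFlow ψ → IsBox ψ σ δ → (∀ t ≠ 0, ψ t (σ 0) ≠ σ 0) →
  (∀ U ∈ 𝓝 (σ 0), ∀ N : ℝ, ∃ t ≥ N, ψ t (σ 0) ∈ U) →
  ∃ T b : ℝ, 0 < T ∧ |b| ≤ 1 / 2 ∧ b ≠ 0 ∧ ψ T (σ 0) = σ b ∧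
    ∀ t, 0 < t → t < T → ∀ ς, |ς| ≤ 1 / 2 → ψ t (σ 0) ≠ σ ς

/-- FLP: the flip of the section -/
def T_FLP : Prop := ∀ (S : Type) [TopologicalSpace S] (ψ : ℝ → S → S) (σ : ℝ → S) (δ : ℝ),
  IsBox ψ σ δ → IsBox ψ (fun s => σ (-s)) δ

/-- RTM: the return map -/
def T_RTM : Prop := ∀ (S : Type) [TopologicalSpace S] (ψ : ℝ → S → S) (σ : ℝ → S)
  (δ : ℝ), IsFlow ψ → IsBox ψ σ δ → ∀ T b : ℝ, 0 < T → 0 < b → b < 1 → ψ T (σ 0) = σ b →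
  ∃ (ε : ℝ) (Tm P : ℝ → ℝ), 0 < ε ∧ ε < P (-ε) ∧ P ε < 1 ∧ Tm 0 = T ∧ P 0 = b ∧
    ContinuousOn Tm (Icc (-ε) ε) ∧ ContinuousOn P (Icc (-ε) ε) ∧ StrictMonoOn P (Icc (-ε) ε) ∧
    (∀ s ∈ Icc (-ε) ε, 0 < Tm s) ∧ ∀ s ∈ Icc (-ε) ε, ψ (Tm s) (σ s) = σ (P s)

/-- FRR: no return in the meantime -/
def T_FRR : Prop := ∀ (S : Type) [TopologicalSpace S] [T2Space S] (ψ : ℝ → S → S) (σ : ℝ → S)
  (δ : ℝ), IsFlow ψ → IsBox ψ σ δ → ∀ T b : ℝ, 0 < T → 0 < b → b ≤ 1 / 2 → ψ T (σ 0) = σ b →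
  (∀ t, 0 < t → t < T → ∀ ς, |ς| ≤ 1 / 2 → ψ t (σ 0) ≠ σ ς) →
  ∀ (ε₀ : ℝ) (Tm P : ℝ → ℝ), 0 < ε₀ → ε₀ < P (-ε₀) → P ε₀ < 1 → Tm 0 = T → P 0 = b →
    ContinuousOn Tm (Icc (-ε₀) ε₀) → ContinuousOn P (Icc (-ε₀) ε₀) →
    StrictMonoOn P (Icc (-ε₀) ε₀) → (∀ s ∈ Icc (-ε₀) ε₀, 0 < Tm s) →
    (∀ s ∈ Icc (-ε₀) ε₀, ψ (Tm s) (σ s) = σ (P s)) → ∃ ε, IsRet ψ σ δ ε Tm P

/-- TRV: the closed transversal curve -/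
def T_TRV : Prop := ∀ (S : Type) [TopologicalSpace S] [T2Space S] (ψ : ℝ → S → S) (σ : ℝ → S)
  (δ : ℝ), IsFlow ψ → IsBox ψ σ δ → ∀ (ε : ℝ) (Tm P : ℝ → ℝ), IsRet ψ σ δ ε Tm P →
  ∃ (V : Set S) (r : S → ℝ) (η h₀ : ℝ), IsTrv ψ V r η ∧ ψ h₀ (σ 0) ∈ V ∧ r (ψ h₀ (σ 0)) = 0

end Pool.Agent.H59.CFL
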